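import Pool.Agent.Helper35.SV.Stm
import Pool.Graph.R_pool_sql_team_seeded_3997aac3.Q73.NL.T6

/-!
# Small values: circles that miss `{u ≥ σ}` or `{u ≤ -σ}`
-/

set_option autoImplicit false
open MeasureTheory Filter Topology Complex Metric
open scoped ContDiff ENNReal

namespace Pool.Agent.Helper35.SV

open Pool.Agent.Q73.NL (dx dy lap Sol nod gr dd_eq lap_sub t4)

/-- the barrier -/
noncomputable def br (c a : ℝ) (x : ℂ) (z : ℂ) : ℝ :=
  c * (Real.cos (a * (z - x).re) * Real.cos (a * (z - x).im))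

theorem br_smooth (c a : ℝ) (x : ℂ) : ContDiff ℝ ∞ (br c a x) := by
  unfold br
  have h1 : ContDiff ℝ ∞ fun z : ℂ => (z - x).re :=
    reCLM.contDiff.comp (contDiff_id.sub contDiff_const)
  have h2 : ContDiff ℝ ∞ fun z : ℂ => (z - x).im :=
    imCLM.contDiff.comp (contDiff_id.sub contDiff_const)
  exact contDiff_const.mul ((contDiff_const.mul h1).cos.mul (contDiff_const.mul h2).cos)

theorem br_lap (c a : ℝ) (x z : ℂ) : lap (br c a x) z = -2 * a ^ 2 * br c a x z := by
  have hs : ContDiffAt ℝ 2 (br c a x) z := (br_smooth c a x).contDiffAt.of_le (by norm_cast)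
  have hx : fderiv ℝ (fun w => fderiv ℝ (br c a x) w 1) z 1 = -(a ^ 2 * br c a x z) := by
    refine dd_eq hs (g' := fun s => c * (-Real.sin (a * ((z - x).re + s)) * a *
      Real.cos (a * (z - x).im))) ?_ ?_
    · intro s
      have e : (fun s : ℝ => br c a x (z + s • (1 : ℂ))) = fun s =>
          c * (Real.cos (a * ((z - x).re + s)) * Real.cos (a * (z - x).im)) := by
        funext s
        unfold br
        have h1 : (z + s • (1 : ℂ) - x).re = (z - x).re + s := by simp; ring
        have h2 : (z + s • (1 : ℂ) - x).im = (z - x).im := by simp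
        rw [h1, h2]
      rw [e]
      have h1 : HasDerivAt (fun s : ℝ => a * ((z - x).re + s)) (a * 1) s :=
        ((hasDerivAt_id s).const_add _).const_mul a
      rw [mul_one] at h1
      exact ((h1.cos).mul_const (Real.cos (a * (z - x).im))).const_mul c
    · have h1 : HasDerivAt (fun s : ℝ => a * ((z - x).re + s)) (a * 1) 0 :=
        ((hasDerivAt_id (0 : ℝ)).const_add _).const_mul a
      have h2 := ((((h1.sin).neg.mul_const a).mul_const (Real.cos (a * (z - x).im)))).const_mul c
      refine h2.congr_deriv ?_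
      unfold br
      simp only [add_zero]
      ring
  have hy : fderiv ℝ (fun w => fderiv ℝ (br c a x) w I) z I = -(a ^ 2 * br c a x z) := by
    refine dd_eq hs (g' := fun s => c * (Real.cos (a * (z - x).re) *
      (-Real.sin (a * ((z - x).im + s)) * a))) ?_ ?_
    · intro s
      have e : (fun s : ℝ => br c a x (z + s • I)) = fun s =>
          c * (Real.cos (a * (z - x).re) * Real.cos (a * ((z - x).im + s))) := by
        funext s
        unfold br
        have h1 : (z + s • I - x).re = (z - x).re := by simp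
        have h2 : (z + s • I - x).im = (z - x).im + s := by simp; ring
        rw [h1, h2]
      rw [e]
      have h1 : HasDerivAt (fun s : ℝ => a * ((z - x).im + s)) (a * 1) s :=
        ((hasDerivAt_id s).const_add _).const_mul a
      rw [mul_one] at h1
      exact ((h1.cos).const_mul (Real.cos (a * (z - x).re))).const_mul c
    · have h1 : HasDerivAt (fun s : ℝ => a * ((z - x).im + s)) (a * 1) 0 :=
        ((hasDerivAt_id (0 : ℝ)).const_add _).const_mul a
      have h2 := ((((h1.sin).neg.mul_const a).const_mul (Real.cos (a * (z - x).re)))).const_mul c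
      refine h2.congr_deriv ?_
      unfold br
      simp only [add_zero]
      ring
  have e : lap (br c a x) z = fderiv ℝ (fun w => fderiv ℝ (br c a x) w 1) z 1 +
    fderiv ℝ (fun w => fderiv ℝ (br c a x) w I) z I := rfl
  rw [e, hx, hy]
  ring

theorem bad_aux (hMV : S_MV) {Ω : Set ℂ} {V u : ℂ → ℝ} {x : ℂ} {t a W σ τ : ℝ} (hΩ : IsOpen Ω)
    (hu : Sol Ω V u) (ht : 0 < t) (ha : 0 < a) (hat : a * t < Real.pi / 2) (hσ : 0 < σ) (hτ : 0 < τ)
    (hW : 1 ≤ W * Real.cos (a * t) ^ 2) (hV : ∀ z ∈ Ω, 0 ≤ V z ∧ V z < 2 * a ^ 2)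
    (hB : closedBall x t ⊆ Ω) {y : ℂ} (hy : y ∈ ball x ((1 - τ) * t)) (hy0 : u y = 0)
    (hc : ∀ z ∈ sphere x t, u z < σ) :
    ENNReal.ofReal (Real.pi * τ ^ 2 * t ^ 2 / 2) ≤ volume (ball x t ∩ {z | |u z| ≤ 2 * W * σ}) := by
  have hpi := Real.pi_pos
  have hW0 : 0 < W := by
    by_contra h
    push Not at h
    nlinarith [sq_nonneg (Real.cos (a * t))]
  have hcos : 0 < Real.cos (a * t) := Real.cos_pos_of_mem_Ioo ⟨by linarith [mul_pos ha ht], hat⟩
  -- the coordinates
  have hco : ∀ z ∈ closedBall x t, |a * (z - x).re| ≤ a * t ∧ |a * (z - x).im| ≤ a * t := by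
    intro z hz
    have h1 : ‖z - x‖ ≤ t := by rwa [mem_closedBall, dist_eq_norm] at hz
    rw [abs_mul, abs_mul, abs_of_pos ha]
    exact ⟨mul_le_mul_of_nonneg_left ((Complex.abs_re_le_norm _).trans h1) ha.le,
      mul_le_mul_of_nonneg_left ((Complex.abs_im_le_norm _).trans h1) ha.le⟩
  have hcc : ∀ s : ℝ, |s| ≤ a * t → Real.cos (a * t) ≤ Real.cos s := by
    intro s hs
    rw [← Real.cos_abs s]
    exact Real.cos_le_cos_of_nonneg_of_le_pi (abs_nonneg _) (by linarith) hs
  have hw1 : ∀ z ∈ closedBall x t, 1 ≤ br W a x z := by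
    intro z hz
    obtain ⟨h1, h2⟩ := hco z hz
    refine hW.trans ?_
    unfold br
    refine mul_le_mul_of_nonneg_left ?_ hW0.le
    rw [sq]
    exact mul_le_mul (hcc _ h1) (hcc _ h2) hcos.le (hcos.le.trans (hcc _ h1))
  have hw2 : ∀ z ∈ closedBall x t, br W a x z ≤ W := by
    intro z hz
    obtain ⟨h1, h2⟩ := hco z hz
    unfold br
    have h3 := hcos.le.trans (hcc _ h2)
    have h4 := Real.cos_le_one (a * (z - x).re)
    have h5 := Real.cos_le_one (a * (z - x).im)
    have h6 : Real.cos (a * (z - x).re) * Real.cos (a * (z - x).im) ≤ 1 := by nlinarith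
    nlinarith
  set g : ℂ → ℝ := fun z => br (σ * W) a x z - u z with hg
  have hbr : ∀ z, br (σ * W) a x z = σ * br W a x z := fun z => by unfold br; ring
  have hbs : ∀ z, ContDiffAt ℝ 2 (br (σ * W) a x) z := fun z =>
    (br_smooth _ a x).contDiffAt.of_le (by norm_cast)
  have hg2 : ∀ z ∈ Ω, ContDiffAt ℝ 2 g z := fun z hz => (hbs z).sub (hu.at hΩ hz)
  have hlg : ∀ z ∈ closedBall x t, lap g z + V z * g z ≤ 0 := by
    intro z hz
    have hzΩ := hB hz
    have h1 : lap g z = lap (br (σ * W) a x) z - lap u z := lap_sub (hbs z) (hu.at hΩ hzΩ)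
    have h2 := hu.eq z hzΩ
    have h3 : V z * g z = V z * (σ * br W a x z) - V z * u z := by
      rw [hg]
      simp only
      rw [hbr]
      ring
    rw [h1, br_lap, h3, hbr]
    have h4 := hw1 z hz
    have h5 := (hV z hzΩ).2
    nlinarith [mul_pos hσ (lt_of_lt_of_le one_pos h4)]
  have hpos : ∀ z ∈ closedBall x t, 0 ≤ g z := by
    refine t4 (closedBall x t) V g x a (isCompact_closedBall x t) ha ?_ ?_ ?_ ?_ ?_ ?_
    · intro z hz
      have h1 : ‖z - x‖ ≤ t := by rwa [mem_closedBall, dist_eq_norm] at hz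
      exact ⟨(mul_le_mul_of_nonneg_left ((Complex.abs_re_le_norm _).trans h1) ha.le).trans_lt hat,
        (mul_le_mul_of_nonneg_left ((Complex.abs_im_le_norm _).trans h1) ha.le).trans_lt hat⟩
    · exact fun z hz => (hg2 z (hB hz)).continuousAt.continuousWithinAt
    · exact fun z hz => hg2 z (hB (interior_subset hz))
    · exact fun z hz => (hV z (hB (interior_subset hz))).2
    · exact fun z hz => hlg z (interior_subset hz)
    · intro z hz
      have hzs : z ∈ sphere x t := frontier_closedBall_subset_sphere hz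
      have h1 := hw1 z (sphere_subset_closedBall hzs)
      have h2 := hc z hzs
      rw [hg]
      simp only
      rw [hbr]
      nlinarith
  have hsub : ball y (τ * t) ⊆ ball x t := by
    intro z hz
    rw [mem_ball] at hz hy ⊢
    have := dist_triangle z y x
    linarith
  have hτt : 0 < τ * t := mul_pos hτ ht
  have hmv := hMV g y (τ * t) hτt (fun z hz => hg2 z (hB (ball_subset_closedBall (hsub hz))))
    (fun z hz => hpos z (ball_subset_closedBall (hsub hz))) (fun z hz => by
      have hz' := ball_subset_closedBall (hsub hz)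
      have h1 := hlg z hz'
      have h2 := hpos z hz'
      have h3 := (hV z (hB hz')).1
      nlinarith [mul_nonneg h3 h2])
  have hyB : y ∈ closedBall x t := ball_subset_closedBall (hsub (mem_ball_self hτt))
  have hgy : g y ≤ σ * W := by
    have h1 := hw2 y hyB
    rw [hg]
    simp only
    rw [hbr, hy0]
    nlinarith
  -- Markov's inequality
  set T : Set ℂ := {z | z ∈ ball y (τ * t) ∧ 2 * (σ * W) ≤ g z} with hT
  have hσW : 0 < σ * W := mul_pos hσ hW0
  have hTm : MeasurableSet T := by
    have h1 : T = ball y (τ * t) \ {z | z ∈ ball y (τ * t) ∧ g z < 2 * (σ * W)} := by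
      ext z
      simp only [hT, Set.mem_ofPred_eq, Set.mem_sdiff, not_and, not_lt]
      tauto
    rw [h1]
    have h2 : IsOpen {z | z ∈ ball y (τ * t) ∧ g z < 2 * (σ * W)} := by
      have h3 : ContinuousOn g (ball y (τ * t)) := fun z hz =>
        (hg2 z (hB (ball_subset_closedBall (hsub hz)))).continuousAt.continuousWithinAt
      exact h3.isOpen_inter_preimage isOpen_ball (isOpen_Iio (a := 2 * (σ * W)))
    exact isOpen_ball.measurableSet.diff h2.measurableSet
  have hTle : ENNReal.ofReal (2 * (σ * W)) * volume T ≤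
      ENNReal.ofReal (Real.pi * (τ * t) ^ 2 * g y) := by
    refine le_trans ?_ hmv
    rw [← setLIntegral_const]
    calc ∫⁻ _ in T, ENNReal.ofReal (2 * (σ * W)) ≤ ∫⁻ z in T, ENNReal.ofReal (g z) :=
        setLIntegral_mono_ae' hTm (Eventually.of_forall fun z hz => ENNReal.ofReal_le_ofReal hz.2)
      _ ≤ _ := lintegral_mono_set fun z hz => hz.1
  have hTfin : volume T ≠ ⊤ :=
    ((measure_mono fun z (hz : z ∈ T) => hz.1).trans_lt isBounded_ball.measure_lt_top).ne
  have hTr : volume.real T ≤ Real.pi * (τ * t) ^ 2 / 2 := by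
    have h1 : ENNReal.ofReal (2 * (σ * W)) * volume T =
        ENNReal.ofReal (2 * (σ * W) * volume.real T) := by
      rw [ENNReal.ofReal_mul (p := 2 * (σ * W)) (by positivity), ofReal_measureReal hTfin]
    rw [h1] at hTle
    have hgy0 : 0 ≤ g y := hpos y hyB
    rw [ENNReal.ofReal_le_ofReal_iff (by positivity)] at hTle
    have h2 : Real.pi * (τ * t) ^ 2 * g y ≤ Real.pi * (τ * t) ^ 2 * (σ * W) :=
      mul_le_mul_of_nonneg_left hgy (by positivity)
    have h3 : 2 * (σ * W) * volume.real T ≤ 2 * (σ * W) * (Real.pi * (τ * t) ^ 2 / 2) := by linarith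
    exact le_of_mul_le_mul_left h3 (by positivity)
  have hball : volume.real (ball y (τ * t)) = Real.pi * (τ * t) ^ 2 := by
    rw [measureReal_def, Complex.volume_ball, ENNReal.toReal_mul, ENNReal.toReal_pow,
      ENNReal.toReal_ofReal hτt.le]
    simp [mul_comm]
  have hTb : T ⊆ ball y (τ * t) := fun z hz => hz.1
  have hbf : volume (ball y (τ * t)) ≠ ⊤ := isBounded_ball.measure_lt_top.ne
  have hdiff : volume.real (ball y (τ * t) \ T) = Real.pi * (τ * t) ^ 2 - volume.real T := by
    rw [measureReal_sdiff hTb hTm hbf, hball]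
  have hsub2 : ball y (τ * t) \ T ⊆ ball x t ∩ {z | |u z| ≤ 2 * W * σ} := by
    rintro z ⟨hz, hzT⟩
    have hz' := hsub hz
    have hzc := ball_subset_closedBall hz'
    refine ⟨hz', ?_⟩
    have h1 : g z < 2 * (σ * W) := by
      by_contra h
      push Not at h
      exact hzT ⟨hz, h⟩
    have h2 := hpos z hzc
    have h3 := hw1 z hzc
    have h4 := hw2 z hzc
    rw [hg] at h1 h2
    simp only [hbr] at h1 h2
    rw [Set.mem_ofPred_eq, abs_le]
    constructor <;> nlinarith
  have hfin2 : volume (ball y (τ * t) \ T) ≠ ⊤ :=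
    ((measure_mono Set.sdiff_subset).trans_lt isBounded_ball.measure_lt_top).ne
  calc ENNReal.ofReal (Real.pi * τ ^ 2 * t ^ 2 / 2) ≤
      ENNReal.ofReal (volume.real (ball y (τ * t) \ T)) := by
        refine ENNReal.ofReal_le_ofReal ?_
        rw [hdiff]
        have : Real.pi * τ ^ 2 * t ^ 2 / 2 = Real.pi * (τ * t) ^ 2 - Real.pi * (τ * t) ^ 2 / 2 := by ring
        linarith
    _ = volume (ball y (τ * t) \ T) := ofReal_measureReal hfin2
    _ ≤ _ := measure_mono hsub2

theorem bad (hMV : S_MV) : S_BAD := by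
  intro Ω V u x t a W σ τ hΩ hu ht ha hat hσ hτ hτ1 hW hV hB hz hc
  obtain ⟨y, hy, hy0⟩ := hz
  rcases hc with hc | hc
  · exact bad_aux hMV hΩ hu ht ha hat hσ hτ hW hV hB hy hy0 hc
  · have h1 := bad_aux hMV hΩ hu.neg ht ha hat hσ hτ hW hV hB hy (by rw [hy0, neg_zero])
      (fun z hz => by have := hc z hz; linarith)
    simpa only [abs_neg] using h1

end Pool.Agent.Helper35.SV
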