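import Pool.Agent.Helper35.SV.CV

/-!
# Small values: the soft form of Crofton's inequality for circles
-/

set_option autoImplicit false
open MeasureTheory Filter Topology Complex Metric
open scoped ContDiff ENNReal

namespace Pool.Agent.Helper35.SV

open Pool.Agent.Q73.NL (dx dy lap Sol nod gr)

theorem int_abs_cos : ∫ s in (0 : ℝ)..(2 * Real.pi), |Real.cos s| = 4 := by
  have hpi := Real.pi_pos
  have hper : Function.Periodic (fun s : ℝ => |Real.cos s|) (2 * Real.pi) := by
    intro s
    simp only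
    rw [Real.cos_add_two_pi]
  have e := hper.intervalIntegral_add_eq 0 (-(Real.pi / 2))
  rw [zero_add] at e
  rw [e]
  have hc : Continuous fun s : ℝ => |Real.cos s| := Real.continuous_cos.abs
  rw [← intervalIntegral.integral_add_adjacent_intervals (b := Real.pi / 2)
    (hc.intervalIntegrable _ _) (hc.intervalIntegrable _ _)]
  have e1 : ∫ s in (-(Real.pi / 2))..(Real.pi / 2), |Real.cos s| = 2 := by
    rw [intervalIntegral.integral_congr (g := fun s => Real.cos s)]
    · rw [integral_cos, Real.sin_neg, Real.sin_pi_div_two]; norm_num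
    · intro s hs
      rw [Set.uIcc_of_le (by linarith)] at hs
      exact abs_of_nonneg (Real.cos_nonneg_of_mem_Icc hs)
  have e2 : ∫ s in (Real.pi / 2)..(-(Real.pi / 2) + 2 * Real.pi), |Real.cos s| = 2 := by
    rw [intervalIntegral.integral_congr (g := fun s => -Real.cos s)]
    · rw [intervalIntegral.integral_neg, integral_cos, Real.sin_pi_div_two]
      have : Real.sin (-(Real.pi / 2) + 2 * Real.pi) = -1 := by
        rw [Real.sin_add_two_pi, Real.sin_neg, Real.sin_pi_div_two]
      rw [this]; norm_num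
    · intro s hs
      rw [Set.uIcc_of_le (by linarith)] at hs
      exact abs_of_nonpos (Real.cos_nonpos_of_pi_div_two_le_of_le hs.1 (by linarith [hs.2]))
  rw [e1, e2]
  norm_num

theorem int_abs_dir (a b : ℝ) :
    ∫ s in (0 : ℝ)..(2 * Real.pi), |a * -Real.sin s + b * Real.cos s| = 4 * Real.sqrt (a ^ 2 + b ^ 2) := by
  set w : ℂ := ⟨b, a⟩ with hw
  have h1 : b = ‖w‖ * Real.cos (arg w) := by rw [Complex.norm_mul_cos_arg]
  have h2 : a = ‖w‖ * Real.sin (arg w) := by rw [Complex.norm_mul_sin_arg]
  have h3 : ‖w‖ = Real.sqrt (a ^ 2 + b ^ 2) := by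
    rw [Complex.norm_eq_sqrt_sq_add_sq, add_comm]
  have e : (fun s : ℝ => |a * -Real.sin s + b * Real.cos s|) =
      fun s => ‖w‖ * |Real.cos (s + arg w)| := by
    funext s
    have h4 : a * -Real.sin s + b * Real.cos s = ‖w‖ * Real.cos (s + arg w) := by
      rw [Real.cos_add]
      linear_combination (-Real.sin s) * h2 + Real.cos s * h1
    rw [h4, abs_mul, abs_of_nonneg (norm_nonneg w)]
  have hper : Function.Periodic (fun s : ℝ => |Real.cos s|) (2 * Real.pi) := by
    intro s
    simp only
    rw [Real.cos_add_two_pi]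
  rw [e, intervalIntegral.integral_const_mul,
    intervalIntegral.integral_comp_add_right (fun s => |Real.cos s|) (arg w), h3]
  have e2 := hper.intervalIntegral_add_eq (0 + arg w) 0
  rw [zero_add (2 * Real.pi), int_abs_cos] at e2
  have e3 : 0 + arg w + 2 * Real.pi = 2 * Real.pi + arg w := by ring
  rw [e3] at e2
  rw [e2]
  ring

theorem ind_meas {Ω : Set ℂ} {f : ℂ → ℝ} (hΩ : IsOpen Ω) (hf : ContinuousOn f Ω) :
    Measurable (Ω.indicator f) := by
  classical
  have h := ContinuousOn.measurable_piecewise hf (continuousOn_const (c := (0 : ℝ)))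
    hΩ.measurableSet
  have e : Ω.piecewise f (fun _ => (0 : ℝ)) = Ω.indicator f := by
    ext z
    by_cases hz : z ∈ Ω <;> simp [hz]
  rwa [e] at h

/-- the kernel -/
noncomputable def ker (Ω : Set ℂ) (u : ℂ → ℝ) (Θ : ℝ → ℝ) (t : ℝ) (z : ℂ) (s : ℝ) : ℝ≥0∞ :=
  ENNReal.ofReal (Ω.indicator (fun z => Θ (u z)) z * (t * |Ω.indicator (dx u) z * -Real.sin s +
    Ω.indicator (dy u) z * Real.cos s|))

theorem dxc {Ω : Set ℂ} {u : ℂ → ℝ} (hΩ : IsOpen Ω) (hu : ContDiffOn ℝ ∞ u Ω) (e : ℂ) :
    ContinuousOn (fun z => fderiv ℝ u z e) Ω :=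
  (hu.continuousOn_fderiv_of_isOpen hΩ (by norm_cast)).clm_apply continuousOn_const

theorem ker_meas {Ω : Set ℂ} {u : ℂ → ℝ} {Θ : ℝ → ℝ} (t : ℝ) (hΩ : IsOpen Ω)
    (hu : ContDiffOn ℝ ∞ u Ω) (hΘ : Continuous Θ) :
    Measurable (Function.uncurry (ker Ω u Θ t)) := by
  have m1 : Measurable (Ω.indicator fun z => Θ (u z)) :=
    ind_meas hΩ (hΘ.comp_continuousOn hu.continuousOn)
  have m2 : Measurable (Ω.indicator (dx u)) := ind_meas hΩ (dxc hΩ hu 1)
  have m3 : Measurable (Ω.indicator (dy u)) := ind_meas hΩ (dxc hΩ hu I)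
  unfold ker Function.uncurry
  refine ENNReal.measurable_ofReal.comp ((m1.comp measurable_fst).mul (measurable_const.mul ?_))
  refine Measurable.abs ?_
  exact ((m2.comp measurable_fst).mul (Real.measurable_sin.comp measurable_snd).neg).add
    ((m3.comp measurable_fst).mul (Real.measurable_cos.comp measurable_snd))

theorem circle_deriv {Ω : Set ℂ} {u : ℂ → ℝ} (hΩ : IsOpen Ω) (hu : ContDiffOn ℝ ∞ u Ω) {x : ℂ}
    {t : ℝ} {s : ℝ} (h : circleMap x t s ∈ Ω) :
    HasDerivAt (fun s => u (circleMap x t s)) (t * (dx u (circleMap x t s) * -Real.sin s +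
      dy u (circleMap x t s) * Real.cos s)) s := by
  have h1 : DifferentiableAt ℝ u (circleMap x t s) :=
    (hu.contDiffAt (hΩ.mem_nhds h)).differentiableAt (by simp)
  have h2 := h1.hasFDerivAt.comp_hasDerivAt s (hasDerivAt_circleMap x t s)
  refine h2.congr_deriv ?_
  have h3 : circleMap 0 t s * I = (-(t * Real.sin s)) • (1 : ℂ) + (t * Real.cos s) • I := by
    apply Complex.ext
    · rw [mul_re, circleMap_zero_re, circleMap_zero_im]
      simp
      exact Or.inl (Complex.sin_ofReal_re s).symm
    · rw [mul_im, circleMap_zero_re, circleMap_zero_im]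
      simp
      exact Or.inl (Complex.cos_ofReal_re s).symm
  rw [h3, map_add, map_smul, map_smul]
  unfold dx dy
  simp only [smul_eq_mul]
  ring

theorem cr : S_CR := by
  intro Ω u Θ σ t hΩ hu hΘ hm ht
  have hpi := Real.pi_pos
  set F : ℂ → ℝ≥0∞ := fun x => ∫⁻ s in Set.Ioc 0 (2 * Real.pi), ker Ω u Θ t (circleMap x t s) s with hF
  have hcm : Measurable fun p : ℂ × ℝ => circleMap p.1 t p.2 := by
    have : Continuous fun p : ℂ × ℝ => circleMap p.1 t p.2 := by
      unfold circleMap
      fun_prop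
    exact this.measurable
  have hjm : Measurable (Function.uncurry fun (x : ℂ) (s : ℝ) => ker Ω u Θ t (circleMap x t s) s) :=
    (ker_meas t hΩ hu hΘ.cont).comp (hcm.prodMk measurable_snd)
  -- the circle integral of a good centre
  have hgood : {x | closedBall x t ⊆ Ω ∧ (∃ z ∈ sphere x t, σ ≤ u z) ∧ (∃ z ∈ sphere x t, u z ≤ -σ)} ⊆
      {x | ENNReal.ofReal (2 * ms Θ σ) ≤ F x} := by
    rintro x ⟨hx, ⟨z1, hz1, hu1⟩, ⟨z2, hz2, hu2⟩⟩
    have hmem : ∀ s, circleMap x t s ∈ Ω := fun s =>
      hx (sphere_subset_closedBall (circleMap_mem_sphere x ht.le s))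
    have hrange : ∀ z ∈ sphere x t, ∃ s, circleMap x t s = z := by
      intro z hz
      have h1 : Set.range (circleMap x t) = sphere x |t| := range_circleMap x t
      rw [abs_of_pos ht] at h1
      rw [← h1] at hz
      exact hz
    obtain ⟨a, ha⟩ := hrange z1 hz1
    obtain ⟨b, hb⟩ := hrange z2 hz2
    set h' : ℝ → ℝ := fun s => t * (dx u (circleMap x t s) * -Real.sin s +
      dy u (circleMap x t s) * Real.cos s) with hh'
    have c1 : Continuous fun s => dx u (circleMap x t s) :=
      (dxc hΩ hu 1).comp_continuous (continuous_circleMap x t) hmem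
    have c2 : Continuous fun s => dy u (circleMap x t s) :=
      (dxc hΩ hu I).comp_continuous (continuous_circleMap x t) hmem
    have c3 : Continuous fun s => u (circleMap x t s) :=
      hu.continuousOn.comp_continuous (continuous_circleMap x t) hmem
    have hc' : Continuous h' := by rw [hh']; fun_prop
    have h1 := cv (fun s => u (circleMap x t s)) h' Θ σ a b (fun s => circle_deriv hΩ hu (hmem s)) hc'
      (fun s => by rw [periodic_circleMap x t s]) hΘ (by rw [ha]; exact hu1)
      (by rw [hb]; exact hu2)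
    rw [Set.mem_ofPred_eq, hF]
    refine (ENNReal.ofReal_le_ofReal h1).trans (le_of_eq ?_)
    rw [intervalIntegral.integral_of_le (by positivity), ofReal_integral_eq_lintegral_ofReal]
    · refine lintegral_congr fun s => ?_
      unfold ker
      rw [Set.indicator_of_mem (hmem s), Set.indicator_of_mem (hmem s), Set.indicator_of_mem (hmem s),
        hh']
      simp only
      rw [abs_mul, abs_of_pos ht]
    · have hk : Continuous fun s => Θ (u (circleMap x t s)) * |h' s| := (hΘ.cont.comp c3).mul hc'.abs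
      exact (hk.intervalIntegrable 0 (2 * Real.pi)).1
    · exact ae_of_all _ fun s => mul_nonneg (hΘ.nn _) (abs_nonneg _)
  -- Fubini
  have hFint : ∫⁻ x, F x = ∫⁻ z in Ω, ENNReal.ofReal (4 * t * (Θ (u z) * gr u z)) := by
    have e1 : ∫⁻ x, F x = ∫⁻ s in Set.Ioc 0 (2 * Real.pi), ∫⁻ x, ker Ω u Θ t (circleMap x t s) s :=
      lintegral_lintegral_swap hjm.aemeasurable
    have e2 : ∀ s : ℝ, ∫⁻ x, ker Ω u Θ t (circleMap x t s) s = ∫⁻ z, ker Ω u Θ t z s := by
      intro s
      have : (fun x => ker Ω u Θ t (circleMap x t s) s) = fun x => ker Ω u Θ t (x + circleMap 0 t s) s := by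
        funext x
        congr 1
        unfold circleMap
        simp
      rw [this]
      exact lintegral_add_right_eq_self (fun z => ker Ω u Θ t z s) (circleMap 0 t s)
    have e3 : ∫⁻ s in Set.Ioc 0 (2 * Real.pi), ∫⁻ z, ker Ω u Θ t z s =
        ∫⁻ z, ∫⁻ s in Set.Ioc 0 (2 * Real.pi), ker Ω u Θ t z s :=
      (lintegral_lintegral_swap (ker_meas t hΩ hu hΘ.cont).aemeasurable).symm
    rw [e1]
    simp_rw [e2]
    rw [e3, ← lintegral_indicator hΩ.measurableSet]
    refine lintegral_congr fun z => ?_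
    by_cases hz : z ∈ Ω
    · rw [Set.indicator_of_mem hz]
      unfold ker
      simp only [Set.indicator_of_mem hz]
      rw [← ofReal_integral_eq_lintegral_ofReal]
      · rw [← intervalIntegral.integral_of_le (by positivity), intervalIntegral.integral_const_mul,
          intervalIntegral.integral_const_mul, int_abs_dir]
        congr 1
        unfold gr
        ring
      · have hk : Continuous fun s => Θ (u z) * (t * |dx u z * -Real.sin s + dy u z * Real.cos s|) := by
          fun_prop
        exact (hk.intervalIntegrable 0 (2 * Real.pi)).1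
      · exact ae_of_all _ fun s => mul_nonneg (hΘ.nn _) (mul_nonneg ht.le (abs_nonneg _))
    · rw [Set.indicator_of_notMem hz]
      unfold ker
      simp only [Set.indicator_of_notMem hz]
      simp
  -- Markov
  have hMk := mul_meas_ge_le_lintegral (μ := (volume : Measure ℂ)) (f := F)
    (Measurable.lintegral_prod_right' (ν := volume.restrict (Set.Ioc 0 (2 * Real.pi))) hjm)
    (ENNReal.ofReal (2 * ms Θ σ))
  rw [hFint] at hMk
  have hm2 : ENNReal.ofReal (2 * ms Θ σ) ≠ 0 := by
    rw [Ne, ENNReal.ofReal_eq_zero, not_le]; positivity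
  have h4 : ∫⁻ z in Ω, ENNReal.ofReal (4 * t * (Θ (u z) * gr u z)) =
      ENNReal.ofReal (4 * t) * ∫⁻ z in Ω, ENNReal.ofReal (Θ (u z) * gr u z) := by
    have h5 : ∀ z, ENNReal.ofReal (4 * t * (Θ (u z) * gr u z)) =
        ENNReal.ofReal (4 * t) * ENNReal.ofReal (Θ (u z) * gr u z) := fun z =>
      ENNReal.ofReal_mul (by positivity)
    simp_rw [h5]
    exact lintegral_const_mul' _ _ ENNReal.ofReal_ne_top
  rw [h4] at hMk
  have h6 : ENNReal.ofReal (4 * t) = ENNReal.ofReal (2 * ms Θ σ) * ENNReal.ofReal (2 * t / ms Θ σ) := by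
    rw [← ENNReal.ofReal_mul (by positivity)]
    congr 1
    field_simp
    ring
  rw [h6, mul_assoc, ENNReal.mul_le_mul_iff_right hm2 ENNReal.ofReal_ne_top] at hMk
  exact (measure_mono hgood).trans hMk

end Pool.Agent.Helper35.SV
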