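import Pool.Agent.Helper35.SV.Stm

/-!
# Small values: variation along a circle
-/

set_option autoImplicit false
open MeasureTheory Filter Topology Complex Metric
open scoped ContDiff ENNReal

namespace Pool.Agent.Helper35.SV

open Pool.Agent.Q73.NL (dx dy lap Sol nod gr)

/-- a primitive of the weight -/
noncomputable def Pm (Θ : ℝ → ℝ) (σ : ℝ) (y : ℝ) : ℝ := ∫ x in (-σ)..y, Θ x

theorem Pm_deriv {Θ : ℝ → ℝ} {σ : ℝ} (h : Wt Θ σ) (y : ℝ) : HasDerivAt (Pm Θ σ) (Θ y) y :=
  h.cont.integral_hasStrictDerivAt (-σ) y |>.hasDerivAt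

theorem Pm_right {Θ : ℝ → ℝ} {σ : ℝ} (h : Wt Θ σ) {y : ℝ} (hy : σ ≤ y) : Pm Θ σ y = ms Θ σ := by
  unfold Pm ms
  rw [← intervalIntegral.integral_add_adjacent_intervals (b := σ) (h.cont.intervalIntegrable _ _)
    (h.cont.intervalIntegrable _ _)]
  have h1 : ∫ x in σ..y, Θ x = 0 := by
    rw [intervalIntegral.integral_congr (g := fun _ => (0 : ℝ))]
    · simp
    · intro x hx
      rw [Set.uIcc_of_le hy] at hx
      exact h.supp x (hx.1.trans (le_abs_self x))
  rw [h1, add_zero]

theorem Pm_left {Θ : ℝ → ℝ} {σ : ℝ} (h : Wt Θ σ) {y : ℝ} (hy : y ≤ -σ) : Pm Θ σ y = 0 := by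
  unfold Pm
  rw [intervalIntegral.integral_symm, intervalIntegral.integral_congr (g := fun _ => (0 : ℝ))]
  · simp
  · intro x hx
    rw [Set.uIcc_of_le hy] at hx
    have h1 := neg_le_abs x
    exact h.supp x (by linarith [hx.2])

theorem seg_var {h h' Θ : ℝ → ℝ} {σ : ℝ} (hd : ∀ s, HasDerivAt h (h' s) s) (hc : Continuous h')
    (hΘ : Wt Θ σ) {p q : ℝ} (hpq : p ≤ q) :
    |Pm Θ σ (h q) - Pm Θ σ (h p)| ≤ ∫ s in p..q, Θ (h s) * |h' s| := by
  have hcont : Continuous h := continuous_iff_continuousAt.2 fun s => (hd s).continuousAt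
  have h1 : ∫ s in p..q, Θ (h s) * h' s = Pm Θ σ (h q) - Pm Θ σ (h p) := by
    refine intervalIntegral.integral_eq_sub_of_hasDerivAt (f := fun s => Pm Θ σ (h s)) ?_ ?_
    · intro s _
      exact (Pm_deriv hΘ (h s)).comp s (hd s)
    · exact ((hΘ.cont.comp hcont).mul hc).intervalIntegrable _ _
  rw [← h1]
  refine (intervalIntegral.abs_integral_le_integral_abs hpq).trans (le_of_eq ?_)
  refine intervalIntegral.integral_congr fun s _ => ?_
  show |Θ (h s) * h' s| = Θ (h s) * |h' s|
  rw [abs_mul, abs_of_nonneg (hΘ.nn _)]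

theorem cv : S_CV := by
  intro h h' Θ σ a b hd hc hper hΘ ha hb
  have hpi := Real.pi_pos
  have h2pi : (0 : ℝ) < 2 * Real.pi := by positivity
  have hcont : Continuous h := continuous_iff_continuousAt.2 fun s => (hd s).continuousAt
  have hper' : Function.Periodic h (2 * Real.pi) := hper
  have hder : Function.Periodic h' (2 * Real.pi) := by
    intro s
    have h1 : HasDerivAt (fun s => h (s + 2 * Real.pi)) (h' (s + 2 * Real.pi)) s := by
      have := (hd (s + 2 * Real.pi)).comp_add_const s (2 * Real.pi)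
      exact this
    have h2 : (fun s => h (s + 2 * Real.pi)) = h := funext hper
    rw [h2] at h1
    exact h1.unique (hd s)
  have hkper : Function.Periodic (fun s => Θ (h s) * |h' s|) (2 * Real.pi) := by
    intro s
    simp only
    rw [hper s, hder s]
  have hkc : Continuous fun s => Θ (h s) * |h' s| := (hΘ.cont.comp hcont).mul hc.abs
  set c := toIocMod h2pi a b with hcdef
  have hcm : c ∈ Set.Ioc a (a + 2 * Real.pi) := toIocMod_mem_Ioc h2pi a b
  have hcb : h c = h b := by
    have h1 : c = b - toIocDiv h2pi a b • (2 * Real.pi) := rfl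
    rw [h1]
    exact hper'.sub_zsmul_eq _
  have e1 := seg_var hd hc hΘ (p := a) (q := c) hcm.1.le
  have e2 := seg_var hd hc hΘ (p := c) (q := a + 2 * Real.pi) hcm.2
  have e3 : h (a + 2 * Real.pi) = h a := hper a
  rw [hcb, Pm_right hΘ ha, Pm_left hΘ hb, zero_sub, abs_neg] at e1
  rw [e3, hcb, Pm_right hΘ ha, Pm_left hΘ hb, sub_zero] at e2
  have e4 : (∫ s in a..c, Θ (h s) * |h' s|) + ∫ s in c..(a + 2 * Real.pi), Θ (h s) * |h' s| =
      ∫ s in a..(a + 2 * Real.pi), Θ (h s) * |h' s| :=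
    intervalIntegral.integral_add_adjacent_intervals (hkc.intervalIntegrable _ _)
      (hkc.intervalIntegrable _ _)
  have e5 := hkper.intervalIntegral_add_eq a 0
  rw [zero_add] at e5
  have e6 := le_abs_self (ms Θ σ)
  linarith

end Pool.Agent.Helper35.SV
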