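import Pool.Agent.Helper35.SV.CV
import Pool.Graph.R_pool_sql_team_seeded_3997aac3.Q73.PW.J10
import Pool.Graph.R_pool_sql_team_seeded_3997aac3.Q73.PW.J9
import Pool.Graph.R_pool_sql_team_seeded_3997aac3.Q73.PW.J8

/-!
# Small values: the energy inequality in a chart
-/

set_option autoImplicit false
open MeasureTheory Filter Topology Complex Metric
open scoped ContDiff ENNReal

namespace Pool.Agent.Helper35.SV

open Pool.Agent.Q73.NL (dx dy lap Sol nod gr)
open Pool.Agent.Q73.PW (Seq U1 U2 En j8)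
open Pool.Agent.Q73.PW.J10 (test_zero cont_mul integ_mul integ_mul2)
open Pool.Agent.Q73.PW.J9 (cd1 cd2 dat en_cont)
open Pool.Agent.Results.MP_a52643_an.AbsoluteContinuity (lapl LocL2 Test)

theorem int_zero1 {X : ℂ → ℝ} (hX : ContDiff ℝ 1 X) (hc : HasCompactSupport X) (e : ℂ) :
    Integrable (fun z => fderiv ℝ X z e) ∧ ∫ z, fderiv ℝ X z e = 0 := by
  have h1 : Continuous (fun z => fderiv ℝ X z e) :=
    (hX.continuous_fderiv (by simp)).clm_apply continuous_const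
  have h2 : HasCompactSupport (fun z => fderiv ℝ X z e) := hc.fderiv_apply ℝ e
  have h3 : Integrable (fun z => fderiv ℝ X z e) := h1.integrable_of_hasCompactSupport h2
  refine ⟨h3, ?_⟩
  have := integral_mul_fderiv_eq_neg_fderiv_mul_of_integrable (μ := (volume : Measure ℂ))
    (f := fun _ : ℂ => (1 : ℝ)) (g := X) (v := e) (by simp) (by simpa using h3)
    (by simpa using hX.continuous.integrable_of_hasCompactSupport hc)
    (fun x _ => by fun_prop) (fun x _ => (hX.differentiable (by simp)) x)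
  simpa using this

theorem cut1 {Ω : Set ℂ} (hΩ : IsOpen Ω) {χ F : ℂ → ℝ} (hχ : ContDiff ℝ ∞ χ) (hs : tsupport χ ⊆ Ω)
    (hF : ContDiffOn ℝ 1 F Ω) : ContDiff ℝ 1 (fun z => χ z * F z) := by
  rw [contDiff_iff_contDiffAt]
  intro z
  by_cases hz : z ∈ tsupport χ
  · exact (hχ.contDiffAt.of_le (by norm_cast)).mul (hF.contDiffAt (hΩ.mem_nhds (hs hz)))
  · have h1 : (fun z => χ z * F z) =ᶠ[𝓝 z] fun _ => 0 := by
      have : ∀ᶠ w in 𝓝 z, w ∉ tsupport χ := (isClosed_tsupport χ).isOpen_compl.mem_nhds hz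
      filter_upwards [this] with w hw
      rw [image_eq_zero_of_notMem_tsupport hw, zero_mul]
    exact contDiffAt_const.congr_of_eventuallyEq h1

theorem cut_zero1 {χ F : ℂ → ℝ} {z : ℂ} (hz : z ∉ tsupport χ) (e : ℂ) :
    fderiv ℝ (fun z => χ z * F z) z e = 0 := by
  have h1 : (fun z => χ z * F z) =ᶠ[𝓝 z] fun _ => 0 := by
    have : ∀ᶠ w in 𝓝 z, w ∉ tsupport χ := (isClosed_tsupport χ).isOpen_compl.mem_nhds hz
    filter_upwards [this] with w hw
    rw [image_eq_zero_of_notMem_tsupport hw, zero_mul]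
  rw [h1.fderiv_eq]
  simp

/-- the centred primitive -/
noncomputable def Xc (Θ : ℝ → ℝ) (σ : ℝ) (y : ℝ) : ℝ := Pm Θ σ y - ms Θ σ / 2

theorem Xc_deriv {Θ : ℝ → ℝ} {σ : ℝ} (h : Wt Θ σ) (y : ℝ) : HasDerivAt (Xc Θ σ) (Θ y) y :=
  (Pm_deriv h y).sub_const _

theorem Pm_mono {Θ : ℝ → ℝ} {σ : ℝ} (h : Wt Θ σ) : Monotone (Pm Θ σ) :=
  monotone_of_deriv_nonneg (fun y => (Pm_deriv h y).differentiableAt)
    (fun y => by rw [(Pm_deriv h y).deriv]; exact h.nn y)

theorem Xc_abs {Θ : ℝ → ℝ} {σ : ℝ} (h : Wt Θ σ) (y : ℝ) : |Xc Θ σ y| ≤ ms Θ σ / 2 := by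
  have h1 : 0 ≤ Pm Θ σ y := by
    have := Pm_mono h (min_le_left y (-σ))
    rw [Pm_left h (min_le_right _ _)] at this
    exact this
  have h2 : Pm Θ σ y ≤ ms Θ σ := by
    have := Pm_mono h (le_max_left y σ)
    rw [Pm_right h (le_max_right _ _)] at this
    exact this
  unfold Xc
  rw [abs_le]
  constructor <;> linarith

theorem Xc_c1 {Θ : ℝ → ℝ} {σ : ℝ} (h : Wt Θ σ) : ContDiff ℝ 1 (Xc Θ σ) := by
  rw [contDiff_one_iff_deriv]
  refine ⟨fun y => (Xc_deriv h y).differentiableAt, ?_⟩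
  have : deriv (Xc Θ σ) = Θ := funext fun y => (Xc_deriv h y).deriv
  rw [this]
  exact h.cont

theorem ms_nonneg {Θ : ℝ → ℝ} {σ : ℝ} (h : Wt Θ σ) : 0 ≤ ms Θ σ := by
  have := (abs_nonneg _).trans (Xc_abs h 0)
  linarith

/-- the derivative of one component of the field -/
theorem comp_deriv {Ω : Set ℂ} (hΩ : IsOpen Ω) {χ u g : ℂ → ℝ} {Θ : ℝ → ℝ} {σ : ℝ} (hΘ : Wt Θ σ)
    (hχ : ContDiff ℝ ∞ χ) (hu : ContDiffOn ℝ ∞ u Ω) (hg : ContDiffOn ℝ ∞ g Ω) {z : ℂ} (hz : z ∈ Ω)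
    (e : ℂ) : fderiv ℝ (fun z => χ z * (Xc Θ σ (u z) * g z)) z e =
      fderiv ℝ χ z e * (Xc Θ σ (u z) * g z) + χ z * (Θ (u z) * fderiv ℝ u z e * g z +
        Xc Θ σ (u z) * fderiv ℝ g z e) := by
  have h1 : HasFDerivAt χ (fderiv ℝ χ z) z :=
    (hχ.contDiffAt.differentiableAt (by simp)).hasFDerivAt
  have h2 : HasFDerivAt u (fderiv ℝ u z) z := (dat hΩ hu hz).hasFDerivAt
  have h3 : HasFDerivAt g (fderiv ℝ g z) z := (dat hΩ hg hz).hasFDerivAt
  have h4 : HasFDerivAt (fun z => Xc Θ σ (u z)) (Θ (u z) • fderiv ℝ u z) z :=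
    (Xc_deriv hΘ (u z)).comp_hasFDerivAt z h2
  have h5 := h1.mul (h4.mul h3)
  have h6 : fderiv ℝ (fun z => χ z * (Xc Θ σ (u z) * g z)) z = _ := h5.fderiv
  rw [h6]
  simp
  ring

theorem en_low {l : ℝ} (hl : 0 < l) (u : ℂ → ℝ) (z : ℂ) :
    |U1 u z| + |U2 u z| ≤ √l * En (1 / √l) u z := by
  have hs : 0 < √l := Real.sqrt_pos.2 hl
  have h1 : 1 + (1 / √l) ^ 2 * (U1 u z ^ 2 + U2 u z ^ 2) ≤ En (1 / √l) u z := by
    unfold En
    have : 0 ≤ (1 / √l) ^ 4 * (U1 (U1 u) z ^ 2 + U1 (U2 u) z ^ 2 + U2 (U1 u) z ^ 2 +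
      U2 (U2 u) z ^ 2) := by positivity
    have := sq_nonneg (u z)
    linarith
  refine le_trans ?_ (mul_le_mul_of_nonneg_left h1 hs.le)
  set a := |U1 u z| / √l with ha
  set b := |U2 u z| / √l with hb
  have e1 : |U1 u z| = √l * a := by rw [ha]; field_simp
  have e2 : |U2 u z| = √l * b := by rw [hb]; field_simp
  have e3 : (1 / √l) ^ 2 * (U1 u z ^ 2 + U2 u z ^ 2) = a ^ 2 + b ^ 2 := by
    rw [ha, hb, div_pow, div_pow, div_pow, sq_abs, sq_abs]
    ring
  rw [e1, e2, e3, ← mul_add]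
  refine mul_le_mul_of_nonneg_left ?_ hs.le
  nlinarith [sq_nonneg (2 * a - 1), sq_nonneg (2 * b - 1), sq_nonneg a, sq_nonneg b]

theorem en : S_EN := by
  intro Ω ρ lam u hS χ hχ Θ σ hΘ
  have hΩ := hS.hΩ
  have hK : IsCompact (tsupport χ) := hχ.2.1
  have hKΩ : tsupport χ ⊆ Ω := hχ.2.2.1
  have hχu : ContDiffOn ℝ ∞ χ Set.univ := hχ.1.contDiffOn
  obtain ⟨C8, hC8⟩ := j8 Ω ρ lam u hS (tsupport χ) hK hKΩ
  obtain ⟨B2, hB2⟩ := hK.exists_bound_of_continuousOn
    ((cd1 isOpen_univ hχu).continuousOn.mono (Set.subset_univ _))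
  obtain ⟨B3, hB3⟩ := hK.exists_bound_of_continuousOn
    ((cd2 isOpen_univ hχu).continuousOn.mono (Set.subset_univ _))
  obtain ⟨B, hB⟩ : ∃ B : ℝ, B = |B2| + |B3| := ⟨_, rfl⟩
  have p2 := abs_nonneg B2
  have p3 := abs_nonneg B3
  have l2 := le_abs_self B2
  have l3 := le_abs_self B3
  have hm0 := ms_nonneg hΘ
  refine ⟨ms Θ σ / 2 * B * C8, ?_⟩
  filter_upwards [hC8] with n hn
  obtain ⟨hn0, hn⟩ := hn
  have hs : 0 < √(lam n) := Real.sqrt_pos.2 hn0
  have hu := hS.hu n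
  have c1 : ContDiffOn ℝ 1 (fun z => Xc Θ σ (u n z) * U1 (u n) z) Ω :=
    ((Xc_c1 hΘ).comp_contDiffOn (hu.of_le (by norm_cast))).mul ((cd1 hΩ hu).of_le (by norm_cast))
  have c2 : ContDiffOn ℝ 1 (fun z => Xc Θ σ (u n z) * U2 (u n) z) Ω :=
    ((Xc_c1 hΘ).comp_contDiffOn (hu.of_le (by norm_cast))).mul ((cd2 hΩ hu).of_le (by norm_cast))
  have hX1 := cut1 hΩ hχ.1 hKΩ c1
  have hX2 := cut1 hΩ hχ.1 hKΩ c2
  obtain ⟨i1, z1⟩ := int_zero1 hX1 hχ.2.1.mul_right 1
  obtain ⟨i2, z2⟩ := int_zero1 hX2 hχ.2.1.mul_right I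
  have hEn : IntegrableOn (En (1 / √(lam n)) (u n)) (tsupport χ) :=
    ((en_cont _ hΩ hu).mono hKΩ).integrableOn_compact hK
  have hEi : Integrable ((tsupport χ).indicator (En (1 / √(lam n)) (u n))) :=
    (integrable_indicator_iff hK.measurableSet).2 hEn
  have iρ : Integrable (fun z => χ z * ρ z * |u n z|) :=
    integ_mul2 hΩ hχ hS.hρ.continuousOn hu.continuousOn.abs
  have iL : Integrable (fun z => χ z * Θ (u n z) * (U1 (u n) z ^ 2 + U2 (u n) z ^ 2)) :=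
    integ_mul2 hΩ hχ (hΘ.cont.comp_continuousOn hu.continuousOn)
      (((cd1 hΩ hu).continuousOn.pow 2).add ((cd2 hΩ hu).continuousOn.pow 2))
  set D1 : ℂ → ℝ := fun z => fderiv ℝ (fun z => χ z * (Xc Θ σ (u n z) * U1 (u n) z)) z 1 with hD1
  set D2 : ℂ → ℝ := fun z => fderiv ℝ (fun z => χ z * (Xc Θ σ (u n z) * U2 (u n) z)) z I with hD2
  have hle : ∀ z, χ z * Θ (u n z) * (U1 (u n) z ^ 2 + U2 (u n) z ^ 2) ≤
      (D1 z + D2 z) + (lam n * (ms Θ σ / 2)) * (χ z * ρ z * |u n z|) +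
        (ms Θ σ / 2 * B * √(lam n)) * (tsupport χ).indicator (En (1 / √(lam n)) (u n)) z := by
    intro z
    by_cases hz : z ∈ tsupport χ
    · have hzΩ := hKΩ hz
      have hρ0 := hS.hρ0 z hzΩ
      rw [Set.indicator_of_mem hz, hD1, hD2]
      simp only
      rw [comp_deriv hΩ hΘ hχ.1 hu (cd1 hΩ hu) hzΩ, comp_deriv hΩ hΘ hχ.1 hu (cd2 hΩ hu) hzΩ]
      have e1 : fderiv ℝ (U1 (u n)) z 1 + fderiv ℝ (U2 (u n)) z I = -(lam n * (ρ z * u n z)) := by
        have := hS.he n z hzΩ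
        have e2 : lapl (u n) z = fderiv ℝ (U1 (u n)) z 1 + fderiv ℝ (U2 (u n)) z I := rfl
        rw [e2] at this
        linarith
      have b1 : |U1 χ z| ≤ B := by
        have := hB2 z hz; rw [Real.norm_eq_abs] at this; linarith
      have b2 : |U2 χ z| ≤ B := by
        have := hB3 z hz; rw [Real.norm_eq_abs] at this; linarith
      have hB0 : 0 ≤ B := (abs_nonneg _).trans b1
      have x1 := Xc_abs hΘ (u n z)
      have k1 : |Xc Θ σ (u n z) * (U1 χ z * U1 (u n) z + U2 χ z * U2 (u n) z)| ≤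
          ms Θ σ / 2 * B * √(lam n) * En (1 / √(lam n)) (u n) z := by
        rw [abs_mul]
        have k2 : |U1 χ z * U1 (u n) z + U2 χ z * U2 (u n) z| ≤ B * (|U1 (u n) z| + |U2 (u n) z|) := by
          refine (abs_add_le _ _).trans ?_
          rw [abs_mul, abs_mul, mul_add]
          exact add_le_add (mul_le_mul_of_nonneg_right b1 (abs_nonneg _))
            (mul_le_mul_of_nonneg_right b2 (abs_nonneg _))
        have k3 := en_low hn0 (u n) z
        calc |Xc Θ σ (u n z)| * |U1 χ z * U1 (u n) z + U2 χ z * U2 (u n) z| ≤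
            ms Θ σ / 2 * (B * (√(lam n) * En (1 / √(lam n)) (u n) z)) := by
              refine mul_le_mul x1 (k2.trans (mul_le_mul_of_nonneg_left k3 hB0)) (abs_nonneg _)
                (by positivity)
          _ = _ := by ring
      have k4 : Xc Θ σ (u n z) * u n z ≤ ms Θ σ / 2 * |u n z| := by
        refine (le_abs_self _).trans ?_
        rw [abs_mul]
        exact mul_le_mul_of_nonneg_right x1 (abs_nonneg _)
      have k5 : χ z * (Xc Θ σ (u n z) * (lam n * (ρ z * u n z))) ≤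
          lam n * (ms Θ σ / 2) * (χ z * ρ z * |u n z|) := by
        have h0 : 0 ≤ lam n * (χ z * ρ z) := mul_nonneg hn0.le (mul_nonneg (hχ.2.2.2 z) hρ0.le)
        have := mul_le_mul_of_nonneg_left k4 h0
        linarith
      have k6 := neg_abs_le (Xc Θ σ (u n z) * (U1 χ z * U1 (u n) z + U2 χ z * U2 (u n) z))
      have e3 : fderiv ℝ χ z 1 = U1 χ z := rfl
      have e4 : fderiv ℝ χ z I = U2 χ z := rfl
      have e5 : fderiv ℝ (u n) z 1 = U1 (u n) z := rfl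
      have e6 : fderiv ℝ (u n) z I = U2 (u n) z := rfl
      rw [e3, e4, e5, e6]
      have e7 : χ z * (Xc Θ σ (u n z) * fderiv ℝ (U1 (u n)) z 1) +
          χ z * (Xc Θ σ (u n z) * fderiv ℝ (U2 (u n)) z I) =
            -(χ z * (Xc Θ σ (u n z) * (lam n * (ρ z * u n z)))) := by
        linear_combination (χ z * Xc Θ σ (u n z)) * e1
      nlinarith
    · rw [Set.indicator_of_notMem hz, hD1, hD2]
      simp only
      rw [cut_zero1 hz, cut_zero1 hz, image_eq_zero_of_notMem_tsupport hz]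
      simp
  have hG : Integrable (fun z => (D1 z + D2 z) + (lam n * (ms Θ σ / 2)) * (χ z * ρ z * |u n z|) +
        (ms Θ σ / 2 * B * √(lam n)) * (tsupport χ).indicator (En (1 / √(lam n)) (u n)) z) :=
    ((i1.add i2).add (iρ.const_mul _)).add (hEi.const_mul _)
  have hmain := integral_mono iL hG hle
  have hsum : ∫ z, ((D1 z + D2 z) + (lam n * (ms Θ σ / 2)) * (χ z * ρ z * |u n z|) +
        (ms Θ σ / 2 * B * √(lam n)) * (tsupport χ).indicator (En (1 / √(lam n)) (u n)) z) =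
      lam n * (ms Θ σ / 2) * (∫ z, χ z * ρ z * |u n z|) +
        (ms Θ σ / 2 * B * √(lam n)) * ∫ z in tsupport χ, En (1 / √(lam n)) (u n) z := by
    have i12 : Integrable (fun z => D1 z + D2 z) := i1.add i2
    have i3 : Integrable (fun z => (lam n * (ms Θ σ / 2)) * (χ z * ρ z * |u n z|)) := iρ.const_mul _
    have i123 : Integrable (fun z => (D1 z + D2 z) + (lam n * (ms Θ σ / 2)) * (χ z * ρ z * |u n z|)) :=
      i12.add i3
    rw [integral_add i123 (hEi.const_mul _), integral_add i12 i3, integral_add i1 i2, z1, z2,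
      integral_const_mul, integral_const_mul, integral_indicator hK.measurableSet]
    ring
  rw [hsum] at hmain
  have hB0 : 0 ≤ B := by rw [hB]; positivity
  have hfin : (ms Θ σ / 2 * B * √(lam n)) * ∫ z in tsupport χ, En (1 / √(lam n)) (u n) z ≤
      ms Θ σ / 2 * B * C8 * √(lam n) := by
    have := mul_le_mul_of_nonneg_left hn (show 0 ≤ ms Θ σ / 2 * B * √(lam n) by positivity)
    linarith
  linarith

end Pool.Agent.Helper35.SV
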