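import Pool.Agent.Helper35.SV.CV

/-!
# Small values: the quantitative inequality and the density at zero
-/

set_option autoImplicit false
open MeasureTheory Filter Topology
open scoped ENNReal

namespace Pool.Agent.Helper35.SV

/-- comparison of two measures on an interval: from continuous functions to Borel sets -/
theorem borel_of_cont {ν : Measure ℝ} [IsFiniteMeasure ν] {s K : ℝ} (hK : 0 ≤ K)
    (H : ∀ Θ : ℝ → ℝ, Wt Θ s → K * ms Θ s ≤ ∫ x, Θ x ∂ν) (hs : 0 < s) {A : Set ℝ}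
    (hAs : A ⊆ Set.Icc (-s) s) : ENNReal.ofReal K * volume A ≤ ν A := by
  have open_case : ∀ U : Set ℝ, IsOpen U → U ⊆ Set.Ioo (-s) s →
      ENNReal.ofReal K * volume U ≤ ν U := by
    intro U hU hUs
    rw [hU.measure_eq_iSup_isCompact]
    simp only [ENNReal.mul_iSup]
    refine iSup_le fun C => iSup_le fun hCU => iSup_le fun hC => ?_
    obtain ⟨f, f1, f0, -, fI⟩ := exists_continuous_one_zero_of_isCompact hC hU.isClosed_compl
      (Set.disjoint_compl_right_iff_subset.2 hCU)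
    have hW : Wt f s := by
      refine ⟨hs, f.continuous, fun x => (fI x).1, fun x => (fI x).2, fun x hx => f0 fun hxU => ?_⟩
      have := abs_lt.2 (hUs hxU)
      linarith
    have h1 := H f hW
    have h2 : (volume C).toReal ≤ ms f s := by
      have hCs : C ⊆ Set.Ioc (-s) s := fun x hx => ⟨(hUs (hCU hx)).1, (hUs (hCU hx)).2.le⟩
      unfold ms
      rw [intervalIntegral.integral_of_le (by linarith)]
      have e1 : (volume C).toReal = ∫ x in Set.Ioc (-s) s, C.indicator (1 : ℝ → ℝ) x := by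
        rw [integral_indicator_one hC.measurableSet, measureReal_def,
          Measure.restrict_apply hC.measurableSet, Set.inter_eq_left.2 hCs]
      rw [e1]
      have hcs : volume (Set.Ioc (-s) s) ≠ ⊤ := by rw [Real.volume_Ioc]; exact ENNReal.ofReal_ne_top
      have hfm : IsFiniteMeasure (volume.restrict (Set.Ioc (-s) s)) :=
        ⟨by rw [Measure.restrict_apply_univ]; exact hcs.lt_top⟩
      refine integral_mono ((integrable_const (1 : ℝ)).indicator hC.measurableSet) ?_ fun x => ?_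
      · exact (f.continuous.intervalIntegrable (-s) s).1
      · by_cases hx : x ∈ C
        · rw [Set.indicator_of_mem hx]; exact (f1 hx).symm.le
        · rw [Set.indicator_of_notMem hx]; exact (fI x).1
    have h3 : ∫ x, f x ∂ν ≤ (ν U).toReal := by
      have e1 : (ν U).toReal = ∫ x, U.indicator (1 : ℝ → ℝ) x ∂ν := by
        rw [integral_indicator_one hU.measurableSet]; rfl
      rw [e1]
      refine integral_mono ?_ ((integrable_const (1 : ℝ)).indicator hU.measurableSet) fun x => ?_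
      · refine Integrable.of_bound f.continuous.aestronglyMeasurable 1 (ae_of_all _ fun x => ?_)
        rw [Real.norm_eq_abs, abs_of_nonneg (fI x).1]
        exact (fI x).2
      · by_cases hx : x ∈ U
        · rw [Set.indicator_of_mem hx]; exact (fI x).2
        · rw [Set.indicator_of_notMem hx]; exact (f0 hx).le
    have hCf : volume C ≠ ⊤ := hC.measure_lt_top.ne
    have h4 : K * (volume C).toReal ≤ (ν U).toReal :=
      ((mul_le_mul_of_nonneg_left h2 hK).trans h1).trans h3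
    rw [← ENNReal.ofReal_toReal hCf, ← ENNReal.ofReal_mul hK, ← ENNReal.ofReal_toReal (measure_ne_top ν U)]
    exact ENNReal.ofReal_le_ofReal h4
  refine ENNReal.le_of_forall_pos_le_add fun ε hε _ => ?_
  obtain ⟨U, hAU, hU, hUν⟩ := A.exists_isOpen_lt_add (μ := ν) (measure_ne_top ν A)
    (ε := (ε : ℝ≥0∞)) (by exact_mod_cast hε.ne')
  have h1 := open_case (U ∩ Set.Ioo (-s) s) (hU.inter isOpen_Ioo) Set.inter_subset_right
  have h2 : volume A ≤ volume (U ∩ Set.Ioo (-s) s) := by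
    have h3 : A ⊆ (U ∩ Set.Ioo (-s) s) ∪ {-s, s} := by
      intro x hx
      have hx' := hAs hx
      by_cases ha : x = -s
      · right; left; exact ha
      by_cases hb : x = s
      · right; right; exact hb
      · left
        exact ⟨hAU hx, lt_of_le_of_ne hx'.1 (fun h => ha h.symm), lt_of_le_of_ne hx'.2 hb⟩
    refine (measure_mono h3).trans ((measure_union_le _ _).trans ?_)
    have h4 : volume ({-s, s} : Set ℝ) = 0 := (Set.toFinite _).measure_zero _
    rw [h4, add_zero]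
  calc ENNReal.ofReal K * volume A ≤ ENNReal.ofReal K * volume (U ∩ Set.Ioo (-s) s) := by gcongr
    _ ≤ ν (U ∩ Set.Ioo (-s) s) := h1
    _ ≤ ν U := measure_mono Set.inter_subset_left
    _ ≤ ν A + ε := hUν.le

/-- the constant -/
noncomputable def kc (ν : Measure ℝ) (τ s : ℝ) : ℝ :=
  2 / Real.pi ^ 2 * (1 - τ) ^ 2 *
    max 0 (1 - 4 / τ ^ 2 * ν.real (Set.Icc (-(162 * s)) (162 * s))) ^ 2

theorem kc_nonneg (ν : Measure ℝ) (τ s : ℝ) : 0 ≤ kc ν τ s := by
  have hpi := Real.pi_pos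
  unfold kc
  positivity

theorem quant {ν : Measure ℝ} [IsProbabilityMeasure ν] {τ : ℝ} (hτ1 : τ ≤ 1 / 10)
    (hI : 0 < ∫ x, |x| ∂ν) {s : ℝ} (hs : 0 < s)
    (H : ∀ Θ : ℝ → ℝ, Wt Θ s → 0 < ms Θ s → ms Θ s * (1 - τ) / Real.pi *
      (1 - 4 / τ ^ 2 * ν.real {x : ℝ | |x| ≤ 162 * s}) ≤
        √(∫ x, Θ x ∂ν) * √(ms Θ s / 2 * ∫ x, |x| ∂ν)) {A : Set ℝ} (hA : A ⊆ Set.Icc (-s) s) :
    ENNReal.ofReal (kc ν τ s / ∫ x, |x| ∂ν) * volume A ≤ ν A := by
  have hpi := Real.pi_pos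
  have eI : ∀ r : ℝ, {x : ℝ | |x| ≤ r} = Set.Icc (-r) r := fun r => by
    ext x
    simp only [Set.mem_ofPred_eq, Set.mem_Icc, abs_le]
  rw [eI] at H
  set I := ∫ x, |x| ∂ν with hIdef
  have hτc : 0 < 1 - τ := by linarith
  refine borel_of_cont (div_nonneg (kc_nonneg _ _ _) hI.le) (fun Θ hW => ?_) hs hA
  set m := ms Θ s with hm
  have hP0 : 0 ≤ ∫ x, Θ x ∂ν := integral_nonneg fun x => hW.nn x
  have hm0 : 0 ≤ m := by
    rw [hm]; unfold ms
    exact intervalIntegral.integral_nonneg (by linarith) fun x _ => hW.nn x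
  rcases hm0.eq_or_lt with h0 | h0
  · rw [← h0, mul_zero]; exact hP0
  have h2 := H Θ hW h0
  rw [← hm] at h2
  set P := ∫ x, Θ x ∂ν with hP
  set q := max 0 (1 - 4 / τ ^ 2 * ν.real (Set.Icc (-(162 * s)) (162 * s))) with hq
  have hq0 : 0 ≤ q := le_max_left _ _
  have h4 : m * (1 - τ) / Real.pi * q ≤ √P * √(m / 2 * I) := by
    rcases max_choice 0 (1 - 4 / τ ^ 2 * ν.real (Set.Icc (-(162 * s)) (162 * s))) with h | h
    · rw [hq, h, mul_zero]; positivity
    · rw [hq, h]; exact h2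
  have h6 : (m * (1 - τ) / Real.pi * q) ^ 2 ≤ P * (m / 2 * I) := by
    have h7 : 0 ≤ m * (1 - τ) / Real.pi * q := by positivity
    calc (m * (1 - τ) / Real.pi * q) ^ 2 ≤ (√P * √(m / 2 * I)) ^ 2 := pow_le_pow_left₀ h7 h4 2
      _ = P * (m / 2 * I) := by
        rw [mul_pow, Real.sq_sqrt hP0, Real.sq_sqrt (by positivity)]
  have h9 : (m * (1 - τ) / Real.pi * q) ^ 2 = m / 2 * (kc ν τ s * m) := by
    unfold kc
    rw [← hq]
    ring
  have h10 : P * (m / 2 * I) = m / 2 * (P * I) := by ring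
  rw [h9, h10] at h6
  have h8 : kc ν τ s * m ≤ P * I := le_of_mul_le_mul_left h6 (by positivity)
  rw [div_mul_eq_mul_div, div_le_iff₀ hI]
  exact h8

/-- `∫ |x| dν > 0` unless `ν` is the point mass at zero -/
theorem I_pos {ν : Measure ℝ} [IsProbabilityMeasure ν] (hI : Integrable (fun x : ℝ => |x|) ν)
    (h0 : ν {0} ≠ 1) : 0 < ∫ x, |x| ∂ν := by
  refine lt_of_le_of_ne (integral_nonneg fun x => abs_nonneg x) fun h => ?_
  have h1 := (integral_eq_zero_iff_of_nonneg (μ := ν) (fun x => abs_nonneg x) hI).1 h.symm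
  have h2 : ∀ᵐ x ∂ν, x ∈ ({0} : Set ℝ) := by
    filter_upwards [h1] with x hx
    exact abs_eq_zero.1 hx
  have h3 : ν ({0} : Set ℝ)ᶜ = 0 := h2
  have h4 := prob_add_prob_compl (μ := ν) (measurableSet_singleton (0 : ℝ))
  rw [h3, add_zero] at h4
  exact h0 h4

theorem kc_tendsto {ν : Measure ℝ} [IsProbabilityMeasure ν] (h0 : ν {0} = 0) (τ : ℝ) :
    Tendsto (fun s => kc ν τ s) (𝓝[>] 0) (𝓝 (2 / Real.pi ^ 2 * (1 - τ) ^ 2)) := by
  have hp : Tendsto (fun s : ℝ => ν.real (Set.Icc (-(162 * s)) (162 * s))) (𝓝[>] 0) (𝓝 0) := by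
    have h1 := tendsto_measure_biInter_gt (μ := ν) (s := fun s : ℝ => Set.Icc (-(162 * s)) (162 * s))
      (a := 0) (fun r _ => measurableSet_Icc.nullMeasurableSet)
      (fun i j _ hij => Set.Icc_subset_Icc (by linarith) (by linarith))
      ⟨1, one_pos, measure_ne_top _ _⟩
    have h2 : (⋂ r > (0 : ℝ), Set.Icc (-(162 * r)) (162 * r)) = {0} := by
      ext x
      simp only [Set.mem_iInter, Set.mem_Icc, Set.mem_singleton_iff]
      constructor
      · intro h
        by_contra hx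
        have hx' : 0 < |x| := abs_pos.2 hx
        have h3 := h (|x| / 324) (by positivity)
        have h4 : |x| ≤ 162 * (|x| / 324) := abs_le.2 ⟨by linarith [h3.1], h3.2⟩
        linarith
      · rintro rfl r hr
        constructor <;> linarith
    rw [h2, h0] at h1
    exact (ENNReal.tendsto_toReal ENNReal.zero_ne_top).comp h1
  have h1 : Continuous fun p : ℝ => 2 / Real.pi ^ 2 * (1 - τ) ^ 2 *
      max 0 (1 - 4 / τ ^ 2 * p) ^ 2 := by fun_prop
  have h2 := (h1.tendsto 0).comp hp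
  have h3 : 2 / Real.pi ^ 2 * (1 - τ) ^ 2 * max 0 (1 - 4 / τ ^ 2 * (0 : ℝ)) ^ 2 =
      2 / Real.pi ^ 2 * (1 - τ) ^ 2 := by
    rw [mul_zero, sub_zero, max_eq_right zero_le_one]
    ring
  rw [h3] at h2
  exact h2

/-- the density at zero -/
theorem density {ν : Measure ℝ} [IsProbabilityMeasure ν] (hI : Integrable (fun x : ℝ => |x|) ν)
    (h0 : ν {0} = 0)
    (Q : ∀ τ : ℝ, 0 < τ → τ ≤ 1 / 10 → ∀ s : ℝ, 0 < s → ∀ A ⊆ Set.Icc (-s) s,
      ENNReal.ofReal (kc ν τ s / ∫ x, |x| ∂ν) * volume A ≤ ν A) {c : ℝ}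
    (hc : c < 2 / Real.pi ^ 2 / ∫ x, |x| ∂ν) :
    ∃ s : ℝ, 0 < s ∧ ∀ A ⊆ Set.Icc (-s) s, ENNReal.ofReal c * volume A ≤ ν A := by
  have hpi := Real.pi_pos
  have hI0 : 0 < ∫ x, |x| ∂ν := I_pos hI (by rw [h0]; exact zero_ne_one)
  set I := ∫ x, |x| ∂ν with hIdef
  obtain ⟨τ, hτ, hτ1, hcτ⟩ : ∃ τ : ℝ, 0 < τ ∧ τ ≤ 1 / 10 ∧
      c < 2 / Real.pi ^ 2 * (1 - τ) ^ 2 / I := by
    have hcont : Tendsto (fun τ : ℝ => 2 / Real.pi ^ 2 * (1 - τ) ^ 2 / I) (𝓝[>] 0)
        (𝓝 (2 / Real.pi ^ 2 / I)) := by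
      have h1 : Continuous fun τ : ℝ => 2 / Real.pi ^ 2 * (1 - τ) ^ 2 / I := by fun_prop
      have h2 := (h1.tendsto 0).mono_left (nhdsWithin_le_nhds (s := Set.Ioi 0))
      simpa using h2
    have h3 := (hcont.eventually (lt_mem_nhds hc)).and
      (Ioc_mem_nhdsGT (show (0 : ℝ) < 1 / 10 by norm_num))
    obtain ⟨τ, h4, h5⟩ := h3.exists
    exact ⟨τ, h5.1, h5.2, h4⟩
  have hlim := (kc_tendsto h0 τ).div_const I
  have hpos : ∀ᶠ s : ℝ in 𝓝[>] 0, 0 < s := self_mem_nhdsWithin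
  obtain ⟨s, hs1, hs⟩ := ((hlim.eventually (lt_mem_nhds hcτ)).and hpos).exists
  refine ⟨s, hs, fun A hA => le_trans ?_ (Q τ hτ hτ1 s hs A hA)⟩
  exact mul_le_mul' (ENNReal.ofReal_le_ofReal hs1.le) le_rfl

end Pool.Agent.Helper35.SV
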