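import Mathlib

/-!
# Small values: passage to the weak limit
-/

set_option autoImplicit false
open MeasureTheory Filter Topology
open scoped ENNReal

namespace Pool.Agent.Helper35.SV

/-- a continuous majorant of the indicator function of `[-R, R]` -/
noncomputable def Psi (R : ℝ) (k : ℕ) (x : ℝ) : ℝ := max 0 (1 - k * max 0 (|x| - R))

theorem Psi_cont (R : ℝ) (k : ℕ) : Continuous (Psi R k) := by
  unfold Psi; fun_prop

theorem Psi_nonneg (R : ℝ) (k : ℕ) (x : ℝ) : 0 ≤ Psi R k x := le_max_left _ _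

theorem Psi_le (R : ℝ) (k : ℕ) (x : ℝ) : Psi R k x ≤ 1 := by
  unfold Psi
  refine max_le zero_le_one ?_
  have : 0 ≤ (k : ℝ) * max 0 (|x| - R) := by positivity
  linarith

theorem Psi_one {R : ℝ} (k : ℕ) {x : ℝ} (hx : |x| ≤ R) : Psi R k x = 1 := by
  unfold Psi
  rw [max_eq_left (show |x| - R ≤ 0 by linarith)]
  simp

theorem Psi_lim (R : ℝ) (x : ℝ) :
    Tendsto (fun k => Psi R k x) atTop (𝓝 ({x : ℝ | |x| ≤ R}.indicator 1 x)) := by
  by_cases hx : |x| ≤ R
  · rw [Set.indicator_of_mem (show x ∈ {x : ℝ | |x| ≤ R} from hx)]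
    simp only [Psi_one _ hx]
    exact tendsto_const_nhds
  · rw [Set.indicator_of_notMem (show x ∉ {x : ℝ | |x| ≤ R} from hx)]
    push Not at hx
    have hpos : 0 < |x| - R := by linarith
    obtain ⟨N, hN⟩ := exists_nat_ge (1 / (|x| - R))
    refine tendsto_const_nhds.congr' ?_
    filter_upwards [eventually_ge_atTop N] with k hk
    unfold Psi
    rw [max_eq_right hpos.le, max_eq_left]
    have h1 : 1 / (|x| - R) ≤ (k : ℝ) := hN.trans (by exact_mod_cast hk)
    rw [div_le_iff₀ hpos] at h1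
    linarith

theorem Psi_int (ν : Measure ℝ) [IsProbabilityMeasure ν] (R : ℝ) :
    Tendsto (fun k => ∫ x, Psi R k x ∂ν) atTop (𝓝 (ν.real {x : ℝ | |x| ≤ R})) := by
  have hm : MeasurableSet {x : ℝ | |x| ≤ R} := measurableSet_le measurable_norm measurable_const
  rw [← integral_indicator_one hm]
  refine tendsto_integral_of_dominated_convergence (fun _ => (1 : ℝ))
    (fun k => (Psi_cont R k).aestronglyMeasurable) (integrable_const _) (fun k => ?_) ?_
  · refine ae_of_all _ fun x => ?_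
    rw [Real.norm_eq_abs, abs_of_nonneg (Psi_nonneg R k x)]
    exact Psi_le R k x
  · exact ae_of_all _ fun x => Psi_lim R x

theorem limit_law {X : Type*} [MeasurableSpace X] {μ : Measure X} {D : Set X} (hf : μ D ≠ ⊤)
    (V0 : 0 < (μ D).toReal) {f : ℕ → X → ℝ} (mf : ∀ n, Measurable (f n))
    (hi : ∀ n, IntegrableOn (fun x => f n x ^ 2) D μ) {B : ℝ}
    (hB : ∀ n, ∫ x in D, f n x ^ 2 ∂μ ≤ (μ D).toReal * B) {ν : Measure ℝ} [IsProbabilityMeasure ν]
    {σ : ℕ → ℕ} (hσ : StrictMono σ)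
    (hg : ∀ g : ℝ → ℝ, Continuous g → (∃ C, ∀ x, |g x| ≤ C) →
      Tendsto (fun n => (∫ x in D, g (f (σ n) x) ∂μ) / (μ D).toReal) atTop (𝓝 (∫ x, g x ∂ν)))
    (hI : Integrable (fun x : ℝ => |x|) ν) {Θ : ℝ → ℝ} (cΘ : Continuous Θ) (Θ0 : ∀ x, 0 ≤ Θ x)
    (Θ1 : ∀ x, Θ x ≤ 1) {c d m R : ℝ} (hc : 0 < c) (hd : 0 < d) (hm : 0 < m)
    (H : ∀ η : ℝ, 0 < η → ∀ᶠ n in atTop,
      c * ((μ D).toReal - d * (μ {x | x ∈ D ∧ |f n x| ≤ R}).toReal) ≤
        √(∫ x in D, Θ (f n x) ∂μ) * √(m * ∫ x in D, |f n x| ∂μ) + η) :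
    c * (1 - d * ν.real {x : ℝ | |x| ≤ R}) ≤ √(∫ x, Θ x ∂ν) * √(m * ∫ x, |x| ∂ν) := by
  have hfin : IsFiniteMeasure (μ.restrict D) :=
    ⟨by rw [Measure.restrict_apply_univ]; exact lt_top_iff_ne_top.2 hf⟩
  set A := (μ D).toReal with hA
  set I := ∫ x, |x| ∂ν with hIdef
  have hI0 : 0 ≤ I := integral_nonneg fun x => abs_nonneg x
  have B0 : 0 ≤ B := by
    have h1 := (integral_nonneg fun x => sq_nonneg (f 0 x)).trans (hB 0)
    exact nonneg_of_mul_nonneg_right h1 V0
  have i1 : ∀ n, Integrable (fun x => |f n x|) (μ.restrict D) := fun n => by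
    refine Integrable.mono' (g := fun x => 1 + f n x ^ 2) ((integrable_const _).add (hi n))
      (mf n).abs.aestronglyMeasurable (ae_of_all _ fun x => ?_)
    rw [Real.norm_eq_abs, abs_abs, ← sq_abs]
    nlinarith [sq_nonneg (|f n x| - 1), abs_nonneg (f n x)]
  -- the inequality for the continuous majorant and the truncated function
  have key : ∀ k N : ℕ, c * (1 - d * ∫ x, Psi R k x ∂ν) ≤
      √(∫ x, Θ x ∂ν) * √(m * (I + B / (N + 1))) + 1 / ((N : ℝ) + 1) := by
    intro k N
    have hN : (0 : ℝ) < (N : ℝ) + 1 := by positivity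
    have t1 := hg (Psi R k) (Psi_cont R k) ⟨1, fun x => by
      rw [abs_of_nonneg (Psi_nonneg R k x)]; exact Psi_le R k x⟩
    have t2 := hg Θ cΘ ⟨1, fun x => by rw [abs_of_nonneg (Θ0 x)]; exact Θ1 x⟩
    have cmin : Continuous fun x : ℝ => min |x| ((N : ℝ) + 1) := continuous_abs.min continuous_const
    have nmin : ∀ x : ℝ, 0 ≤ min |x| ((N : ℝ) + 1) := fun x => le_min (abs_nonneg _) hN.le
    have t3 := hg (fun x => min |x| ((N : ℝ) + 1)) cmin ⟨(N : ℝ) + 1, fun x => by
      rw [abs_of_nonneg (nmin x)]; exact min_le_right _ _⟩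
    have L := (t1.const_mul d).const_sub 1 |>.const_mul c
    have Rr := ((Real.continuous_sqrt.tendsto _).comp t2).mul ((Real.continuous_sqrt.tendsto _).comp
      ((t3.add_const (B / ((N : ℝ) + 1))).const_mul m)) |>.add_const (1 / ((N : ℝ) + 1))
    have hle := le_of_tendsto_of_tendsto L Rr (by
      filter_upwards [hσ.tendsto_atTop.eventually (H (A * (1 / ((N : ℝ) + 1))) (by positivity))]
        with n hn
      simp only [Function.comp_apply]
      -- small values
      have e1 : (μ {x | x ∈ D ∧ |f (σ n) x| ≤ R}).toReal ≤ ∫ x in D, Psi R k (f (σ n) x) ∂μ := by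
        have hm1 : MeasurableSet {x | |f (σ n) x| ≤ R} := measurableSet_le (mf _).abs measurable_const
        have e2 : (μ {x | x ∈ D ∧ |f (σ n) x| ≤ R}).toReal =
            ∫ x in D, {x | |f (σ n) x| ≤ R}.indicator (1 : X → ℝ) x ∂μ := by
          rw [integral_indicator_one hm1, measureReal_def, Measure.restrict_apply hm1]
          congr 2
          ext x
          simp only [Set.mem_inter_iff, Set.mem_ofPred_eq]
          tauto
        rw [e2]
        refine integral_mono ((integrable_const (1 : ℝ)).indicator hm1) ?_ fun x => ?_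
        · refine Integrable.of_bound ((Psi_cont R k).measurable.comp (mf _)).aestronglyMeasurable 1
            (ae_of_all _ fun x => ?_)
          rw [Real.norm_eq_abs, abs_of_nonneg (Psi_nonneg R k _)]
          exact Psi_le R k _
        · by_cases hx : |f (σ n) x| ≤ R
          · rw [Set.indicator_of_mem (show x ∈ {x | |f (σ n) x| ≤ R} from hx)]
            simp only [Psi_one k hx]
            exact le_rfl
          · rw [Set.indicator_of_notMem (show x ∉ {x | |f (σ n) x| ≤ R} from hx)]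
            exact Psi_nonneg R k _
      -- the first moment
      have e3 : ∫ x in D, |f (σ n) x| ∂μ ≤
          (∫ x in D, min |f (σ n) x| ((N : ℝ) + 1) ∂μ) + A * B / ((N : ℝ) + 1) := by
        have j1 : Integrable (fun x => min |f (σ n) x| ((N : ℝ) + 1)) (μ.restrict D) := by
          refine Integrable.of_bound (cmin.measurable.comp (mf _)).aestronglyMeasurable ((N : ℝ) + 1)
            (ae_of_all _ fun x => ?_)
          rw [Real.norm_eq_abs, abs_of_nonneg (nmin _)]
          exact min_le_right _ _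
        have j2 : ∫ x in D, |f (σ n) x| ∂μ ≤
            ∫ x in D, (min |f (σ n) x| ((N : ℝ) + 1) + 1 / ((N : ℝ) + 1) * f (σ n) x ^ 2) ∂μ := by
          refine integral_mono (i1 _) (j1.add ((hi _).const_mul _)) fun x => ?_
          show |f (σ n) x| ≤ min |f (σ n) x| ((N : ℝ) + 1) + 1 / ((N : ℝ) + 1) * f (σ n) x ^ 2
          rcases le_total |f (σ n) x| ((N : ℝ) + 1) with h | h
          · rw [min_eq_left h]
            have : 0 ≤ 1 / ((N : ℝ) + 1) * f (σ n) x ^ 2 := by positivity
            linarith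
          · rw [min_eq_right h]
            have h5 : |f (σ n) x| ≤ 1 / ((N : ℝ) + 1) * f (σ n) x ^ 2 := by
              rw [← sq_abs, div_mul_eq_mul_div, one_mul, le_div_iff₀ hN]
              nlinarith [abs_nonneg (f (σ n) x)]
            linarith
        rw [integral_add j1 ((hi _).const_mul _), integral_const_mul] at j2
        have j3 : 1 / ((N : ℝ) + 1) * ∫ x in D, f (σ n) x ^ 2 ∂μ ≤ A * B / ((N : ℝ) + 1) := by
          rw [div_mul_eq_mul_div, one_mul]
          exact div_le_div_of_nonneg_right (hB _) hN.le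
        linarith
      have hd' := mul_le_mul_of_nonneg_left e1 hd.le
      have h4 : c * (A - d * ∫ x in D, Psi R k (f (σ n) x) ∂μ) ≤
          c * (A - d * (μ {x | x ∈ D ∧ |f (σ n) x| ≤ R}).toReal) :=
        mul_le_mul_of_nonneg_left (by linarith) hc.le
      have h5 : √(m * ∫ x in D, |f (σ n) x| ∂μ) ≤
          √(m * ((∫ x in D, min |f (σ n) x| ((N : ℝ) + 1) ∂μ) + A * B / ((N : ℝ) + 1))) :=
        Real.sqrt_le_sqrt (mul_le_mul_of_nonneg_left e3 hm.le)
      have h6 := mul_le_mul_of_nonneg_left h5 (Real.sqrt_nonneg (∫ x in D, Θ (f (σ n) x) ∂μ))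
      -- divide by A
      have eA1 : √(∫ x in D, Θ (f (σ n) x) ∂μ) = √A * √((∫ x in D, Θ (f (σ n) x) ∂μ) / A) := by
        rw [← Real.sqrt_mul V0.le]
        congr 1
        field_simp
      have eA2 : √(m * ((∫ x in D, min |f (σ n) x| ((N : ℝ) + 1) ∂μ) + A * B / ((N : ℝ) + 1))) =
          √A * √(m * ((∫ x in D, min |f (σ n) x| ((N : ℝ) + 1) ∂μ) / A + B / ((N : ℝ) + 1))) := by
        rw [← Real.sqrt_mul V0.le]
        congr 1
        field_simp
      rw [eA1, eA2] at h6
      rw [← eA1] at h6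
      have sA : √A * √A = A := Real.mul_self_sqrt V0.le
      set a := √((∫ x in D, Θ (f (σ n) x) ∂μ) / A)
      set b := √(m * ((∫ x in D, min |f (σ n) x| ((N : ℝ) + 1) ∂μ) / A + B / ((N : ℝ) + 1)))
      have h7 : √(∫ x in D, Θ (f (σ n) x) ∂μ) * (√A * b) = A * (a * b) := by
        rw [eA1]
        linear_combination (a * b) * sA
      rw [h7] at h6
      have h8 : A * (c * (1 - d * ((∫ x in D, Psi R k (f (σ n) x) ∂μ) / A))) =
          c * (A - d * ∫ x in D, Psi R k (f (σ n) x) ∂μ) := by field_simp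
      refine le_of_mul_le_mul_left ?_ V0
      rw [h8, mul_add]
      linarith)
    refine hle.trans ?_
    have hmin : ∫ x, min |x| ((N : ℝ) + 1) ∂ν ≤ I := by
      refine integral_mono_of_nonneg (ae_of_all _ fun x => nmin x) hI (ae_of_all _ fun x => ?_)
      exact min_le_left _ _
    have h9 : √(m * ((∫ x, min |x| ((N : ℝ) + 1) ∂ν) + B / ((N : ℝ) + 1))) ≤
        √(m * (I + B / ((N : ℝ) + 1))) :=
      Real.sqrt_le_sqrt (mul_le_mul_of_nonneg_left (by linarith) hm.le)
    have := mul_le_mul_of_nonneg_left h9 (Real.sqrt_nonneg (∫ x, Θ x ∂ν))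
    linarith
  -- N → ∞
  have key2 : ∀ k : ℕ, c * (1 - d * ∫ x, Psi R k x ∂ν) ≤ √(∫ x, Θ x ∂ν) * √(m * I) := by
    intro k
    have t0 : Tendsto (fun N : ℕ => 1 / ((N : ℝ) + 1)) atTop (𝓝 0) :=
      tendsto_one_div_add_atTop_nhds_zero_nat
    have t1 : Tendsto (fun N : ℕ => B / ((N : ℝ) + 1)) atTop (𝓝 0) := by
      have := t0.const_mul B
      simp only [mul_zero] at this
      refine this.congr fun N => ?_
      ring
    have t2 : Tendsto (fun N : ℕ => √(∫ x, Θ x ∂ν) * √(m * (I + B / ((N : ℝ) + 1))) +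
        1 / ((N : ℝ) + 1)) atTop (𝓝 (√(∫ x, Θ x ∂ν) * √(m * (I + 0)) + 0)) :=
      (((Real.continuous_sqrt.tendsto _).comp ((t1.const_add I).const_mul m)).const_mul _).add t0
    rw [add_zero, add_zero] at t2
    exact ge_of_tendsto t2 (Eventually.of_forall fun N => key k N)
  -- k → ∞
  have t3 := ((Psi_int ν R).const_mul d).const_sub 1 |>.const_mul c
  exact le_of_tendsto t3 (Eventually.of_forall key2)

end Pool.Agent.Helper35.SV
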