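import Pool.Agent.Helper35.SV.Main
import Pool.Graph.R_pool_sql_team_seeded_3997aac3.Q73.NL.F2

/-!
# Small values: the linear inequality in a chart, open sets
-/

set_option autoImplicit false
open MeasureTheory Filter Topology Complex Metric
open scoped ContDiff ENNReal

namespace Pool.Agent.Helper35.SV

open Pool.Agent.Q73.NL (dx dy lap Sol nod gr bdy_tendsto exists_grid)

/-- the constant -/
noncomputable def cst (Θ : ℝ → ℝ) (σ τ : ℝ) : ℝ := ms Θ σ * (1 - τ) / Real.pi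

/-- the set of small values -/
def sm (σ : ℝ) (u : ℂ → ℝ) (W : Set ℂ) : Set ℂ := {z | z ∈ W ∧ |u z| ≤ 162 * σ}

/-- the normalized mass of an open set -/
noncomputable def mn (Θ : ℝ → ℝ) (σ τ : ℝ) (ρ : ℂ → ℝ) (W : Set ℂ) (lam : ℝ) (u : ℂ → ℝ) : ℝ≥0∞ :=
  (∫⁻ z in W, ENNReal.ofReal (Real.sqrt (ρ z) * (Θ (u z) * gr u z))) / ENNReal.ofReal (Real.sqrt lam) +
    ENNReal.ofReal (cst Θ σ τ * (4 / τ ^ 2)) * ∫⁻ z in sm σ u W, ENNReal.ofReal (ρ z)

theorem Sol.mono' {Ω U : Set ℂ} {V u : ℂ → ℝ} (h : Sol Ω V u) (hU : U ⊆ Ω) : Sol U V u :=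
  ⟨h.smooth.mono hU, fun z hz => h.eq z (hU hz)⟩

theorem sm_meas {Ω : Set ℂ} {u : ℂ → ℝ} (σ : ℝ) (hΩ : IsOpen Ω) (hu : ContinuousOn u Ω) :
    MeasurableSet (sm σ u Ω) := by
  have h1 : IsOpen {z | z ∈ Ω ∧ 162 * σ < |u z|} :=
    hu.abs.isOpen_inter_preimage hΩ (isOpen_Ioi (a := 162 * σ))
  have h2 : sm σ u Ω = Ω \ {z | z ∈ Ω ∧ 162 * σ < |u z|} := by
    ext z
    simp only [sm, Set.mem_ofPred_eq, Set.mem_sdiff, not_and, not_lt]
    tauto
  rw [h2]
  exact hΩ.measurableSet.diff h1.measurableSet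

theorem cst_pos {Θ : ℝ → ℝ} {σ τ : ℝ} (hm : 0 < ms Θ σ) (hτ1 : τ ≤ 1 / 10) : 0 < cst Θ σ τ := by
  have hpi := Real.pi_pos
  have : 0 < 1 - τ := by linarith
  unfold cst
  positivity

theorem piece (hMV : S_MV) {Θ : ℝ → ℝ} {σ τ : ℝ} (hΘ : Wt Θ σ) (hms : 0 < ms Θ σ) (hτ : 0 < τ)
    (hτ1 : τ ≤ 1 / 10) {Q : Set ℂ} {ρ : ℂ → ℝ} {m M : ℝ} (hQ : IsOpen Q)
    (hb : Bornology.IsBounded Q) (hm : 0 < m) (hρ : ∀ z ∈ Q, m ≤ ρ z ∧ ρ z ≤ M)
    (hρc : ContinuousOn ρ Q) (hM : M ≤ 5 / 4 * m) {lam : ℕ → ℝ} (hl : Tendsto lam atTop atTop)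
    {u : ℕ → ℂ → ℝ} (hu : ∀ n, Sol Q (fun z => lam n * ρ z) (u n)) :
    ENNReal.ofReal (cst Θ σ τ * (m * volume.real Q)) ≤
      liminf (fun n => mn Θ σ τ ρ Q (lam n) (u n)) atTop := by
  have hpi := Real.pi_pos
  have hc0 : 0 < cst Θ σ τ := cst_pos hms hτ1
  have hτc : 0 < 1 - τ := by linarith
  refine le_of_forall_lt fun c hc => ?_
  -- choose ε
  obtain ⟨ε, hε, hcε⟩ : ∃ ε : ℝ, 0 < ε ∧
      c < ENNReal.ofReal (cst Θ σ τ * (m * (volume.real Q - 2 * ε))) := by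
    have hcont : Tendsto (fun ε : ℝ => ENNReal.ofReal (cst Θ σ τ * (m * (volume.real Q - 2 * ε))))
        (𝓝[>] 0) (𝓝 (ENNReal.ofReal (cst Θ σ τ * (m * volume.real Q)))) := by
      have h1 : Continuous fun ε : ℝ => ENNReal.ofReal (cst Θ σ τ * (m * (volume.real Q - 2 * ε))) :=
        ENNReal.continuous_ofReal.comp (by fun_prop)
      have h2 := (h1.tendsto 0).mono_left (nhdsWithin_le_nhds (s := Set.Ioi 0))
      simpa using h2
    have h3 := (hcont.eventually (lt_mem_nhds hc)).and self_mem_nhdsWithin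
    obtain ⟨ε, h4, h5⟩ := h3.exists
    exact ⟨ε, h5, h4⟩
  obtain ⟨t₀, ht₀, hbd⟩ := bdy_tendsto hQ hb hε
  refine lt_of_lt_of_le hcε (le_liminf_of_le (by isBoundedDefault) ?_)
  have hev : ∀ᶠ n in atTop, (Real.pi / (2 * (1 - τ)) / t₀) ^ 2 / m + 1 ≤ lam n :=
    hl.eventually_ge_atTop _
  filter_upwards [hev] with n hn
  have hln : 0 < lam n := lt_of_lt_of_le (by positivity) hn
  set κ := Real.sqrt (lam n * m) with hκdef
  have hκ : 0 < κ := Real.sqrt_pos.2 (by positivity)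
  have hκ2 : κ ^ 2 = lam n * m := Real.sq_sqrt (by positivity)
  have hκκ : Real.pi / (2 * (1 - τ)) / t₀ ≤ κ := by
    rw [hκdef]
    refine Real.le_sqrt_of_sq_le ?_
    have h1 : (Real.pi / (2 * (1 - τ)) / t₀) ^ 2 / m ≤ lam n := by linarith
    rwa [div_le_iff₀ hm] at h1
  have hrad : Real.pi / (2 * κ * (1 - τ)) ≤ t₀ := by
    rw [div_le_iff₀ ht₀] at hκκ
    rw [div_le_iff₀ (by positivity)]
    rw [div_le_iff₀ (by positivity)] at hκκ
    linarith
  have hbdε := hbd _ hrad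
  have h1 := main_ineq hMV Q (fun z => lam n * ρ z) (u n) Θ σ κ τ hQ hb (hu n) hΘ hms hκ hτ hτ1
    (fun z hz => ⟨by rw [hκ2]; exact mul_le_mul_of_nonneg_left (hρ z hz).1 hln.le, by
      rw [hκ2]
      have := (hρ z hz).2
      have : lam n * ρ z ≤ lam n * (5 / 4 * m) := mul_le_mul_of_nonneg_left (this.trans hM) hln.le
      linarith⟩) (continuousOn_const.mul hρc)
  set e := volume.real {z | z ∈ Q ∧ |u n z| ≤ 162 * σ} with he
  have hE0 : 0 ≤ e := measureReal_nonneg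
  have hef : volume {z | z ∈ Q ∧ |u n z| ≤ 162 * σ} ≠ ⊤ :=
    ((measure_mono fun z (hz : z ∈ {z | z ∈ Q ∧ |u n z| ≤ 162 * σ}) => hz.1).trans_lt
      hb.measure_lt_top).ne
  -- the first term
  have h3 : ENNReal.ofReal (Real.sqrt m) * ∫⁻ z in Q, ENNReal.ofReal (Θ (u n z) * gr (u n) z) ≤
      ∫⁻ z in Q, ENNReal.ofReal (Real.sqrt (ρ z) * (Θ (u n z) * gr (u n) z)) := by
    rw [← lintegral_const_mul' _ _ ENNReal.ofReal_ne_top]
    refine setLIntegral_mono_ae' hQ.measurableSet (Eventually.of_forall fun z hz => ?_)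
    rw [← ENNReal.ofReal_mul (Real.sqrt_nonneg _)]
    refine ENNReal.ofReal_le_ofReal (mul_le_mul_of_nonneg_right
      (Real.sqrt_le_sqrt (hρ z hz).1) (mul_nonneg (hΘ.nn _) (Real.sqrt_nonneg _)))
  have h4 : ENNReal.ofReal (cst Θ σ τ * (m * (volume.real Q - 2 * ε - 4 / τ ^ 2 * e))) ≤
      (∫⁻ z in Q, ENNReal.ofReal (Real.sqrt (ρ z) * (Θ (u n z) * gr (u n) z))) /
        ENNReal.ofReal (Real.sqrt (lam n)) := by
    rw [ENNReal.le_div_iff_mul_le (Or.inl (by simpa using hln)) (Or.inl ENNReal.ofReal_ne_top)]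
    refine le_trans ?_ h3
    have h5 : ENNReal.ofReal (cst Θ σ τ * (m * (volume.real Q - 2 * ε - 4 / τ ^ 2 * e))) *
        ENNReal.ofReal (Real.sqrt (lam n)) = ENNReal.ofReal (Real.sqrt m) *
          ENNReal.ofReal (ms Θ σ * (1 - τ) * (κ / Real.pi) *
            (volume.real Q - 2 * ε - 4 / τ ^ 2 * e)) := by
      rw [← ENNReal.ofReal_mul' (Real.sqrt_nonneg _), ← ENNReal.ofReal_mul (Real.sqrt_nonneg _)]
      congr 1
      rw [hκdef, Real.sqrt_mul hln.le]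
      have h6 : Real.sqrt m * Real.sqrt m = m := Real.mul_self_sqrt hm.le
      unfold cst
      calc ms Θ σ * (1 - τ) / Real.pi * (m * (volume.real Q - 2 * ε - 4 / τ ^ 2 * e)) *
            Real.sqrt (lam n) = ms Θ σ * (1 - τ) / Real.pi * ((Real.sqrt m * Real.sqrt m) *
              (volume.real Q - 2 * ε - 4 / τ ^ 2 * e)) * Real.sqrt (lam n) := by rw [h6]
        _ = _ := by ring
    rw [h5]
    refine mul_le_mul' le_rfl (le_trans (ENNReal.ofReal_le_ofReal ?_) h1)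
    refine mul_le_mul_of_nonneg_left ?_ (by positivity)
    linarith
  -- the second term
  have h7 : ENNReal.ofReal (cst Θ σ τ * (m * (4 / τ ^ 2 * e))) ≤
      ENNReal.ofReal (cst Θ σ τ * (4 / τ ^ 2)) * ∫⁻ z in sm σ (u n) Q, ENNReal.ofReal (ρ z) := by
    have h8 : ENNReal.ofReal (m * e) ≤ ∫⁻ z in sm σ (u n) Q, ENNReal.ofReal (ρ z) := by
      rw [ENNReal.ofReal_mul hm.le, he, ofReal_measureReal hef]
      have h9 : ENNReal.ofReal m * volume {z | z ∈ Q ∧ |u n z| ≤ 162 * σ} =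
          ∫⁻ z in sm σ (u n) Q, ENNReal.ofReal m := (setLIntegral_const _ _).symm
      rw [h9]
      exact setLIntegral_mono_ae' (sm_meas σ hQ (hu n).smooth.continuousOn)
        (Eventually.of_forall fun z hz => ENNReal.ofReal_le_ofReal (hρ z hz.1).1)
    refine le_trans (le_of_eq ?_) (mul_le_mul' le_rfl h8)
    rw [← ENNReal.ofReal_mul (by positivity)]
    congr 1
    ring
  unfold mn
  refine le_trans ?_ (add_le_add h4 h7)
  refine le_trans (ENNReal.ofReal_le_ofReal (le_of_eq ?_)) ENNReal.ofReal_add_le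
  ring

theorem mn_mono {Θ : ℝ → ℝ} {σ τ : ℝ} {ρ : ℂ → ℝ} {U U' : Set ℂ} (h : U ⊆ U') (lam : ℝ) (u : ℂ → ℝ) :
    mn Θ σ τ ρ U lam u ≤ mn Θ σ τ ρ U' lam u := by
  unfold mn
  refine add_le_add (ENNReal.div_le_div_right (lintegral_mono_set h) _) (mul_le_mul' le_rfl ?_)
  exact lintegral_mono_set (show sm σ u U ⊆ sm σ u U' from fun _ hz => ⟨h hz.1, hz.2⟩)

theorem bounded_case (hMV : S_MV) {Θ : ℝ → ℝ} {σ τ : ℝ} (hΘ : Wt Θ σ) (hms : 0 < ms Θ σ) (hτ : 0 < τ)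
    (hτ1 : τ ≤ 1 / 10) {U : Set ℂ} {ρ : ℂ → ℝ} (hU : IsOpen U)
    (hb : Bornology.IsBounded U) (hρ : ∀ z ∈ U, 0 < ρ z)
    (hρc : ContinuousOn ρ U) {lam : ℕ → ℝ} (hl : Tendsto lam atTop atTop)
    {u : ℕ → ℂ → ℝ} (hu : ∀ n, Sol U (fun z => lam n * ρ z) (u n)) {q : ℝ} (hq1 : 1 < q)
    (hq2 : q < 5 / 4) :
    ENNReal.ofReal (cst Θ σ τ) * ∫⁻ z in U, ENNReal.ofReal (ρ z) ≤ ENNReal.ofReal q *
      liminf (fun n => mn Θ σ τ ρ U (lam n) (u n)) atTop := by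
  have hpi := Real.pi_pos
  have hc0 : 0 < cst Θ σ τ := cst_pos hms hτ1
  have hq0 : 0 < q := by linarith
  obtain ⟨a, ha, hnull⟩ := exists_grid hU hρc hq0
  set W : ℤ → Set ℂ := fun k => {z | z ∈ U ∧ a * q ^ k < ρ z ∧ ρ z < a * q ^ (k + 1)} with hW
  have hWsub : ∀ k, W k ⊆ U := fun k z hz => hz.1
  have hWo : ∀ k, IsOpen (W k) := fun k =>
    hρc.isOpen_inter_preimage hU (isOpen_Ioo (a := a * q ^ k) (b := a * q ^ (k + 1)))
  have hWb : ∀ k, Bornology.IsBounded (W k) := fun k => hb.subset (hWsub k)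
  have hWd : Pairwise (Function.onFun Disjoint W) := by
    have key : ∀ i j : ℤ, i < j → Disjoint (W i) (W j) := by
      intro i j hij
      rw [Set.disjoint_left]
      intro z hz hz'
      have h1 : q ^ (i + 1) ≤ q ^ j := zpow_le_zpow_right₀ hq1.le (by omega)
      have h2 := hz.2.2
      have h3 := hz'.2.1
      nlinarith
    intro i j hij
    rcases lt_or_gt_of_ne hij with h | h
    · exact key i j h
    · exact (key j i h).symm
  have hcov : U ⊆ (⋃ k, W k) ∪ ⋃ k : ℤ, {z | z ∈ U ∧ ρ z = a * q ^ k} := by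
    intro z hz
    by_cases h : ∃ k : ℤ, ρ z = a * q ^ k
    · right
      obtain ⟨k, hk⟩ := h
      exact Set.mem_iUnion.2 ⟨k, hz, hk⟩
    · left
      push Not at h
      obtain ⟨k, hk1, hk2⟩ := exists_mem_Ico_zpow (div_pos (hρ z hz) ha) hq1
      rw [le_div_iff₀ ha] at hk1
      rw [div_lt_iff₀ ha] at hk2
      refine Set.mem_iUnion.2 ⟨k, hz, lt_of_le_of_ne (by linarith) (fun h' => h k h'.symm), by linarith⟩
  have hI1 : ∫⁻ z in U, ENNReal.ofReal (ρ z) ≤ ∑' k, ∫⁻ z in W k, ENNReal.ofReal (ρ z) := by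
    refine (lintegral_mono_set hcov).trans ((lintegral_union_le _ _ _).trans ?_)
    rw [lintegral_iUnion (fun k => (hWo k).measurableSet) hWd,
      setLIntegral_measure_zero _ _ (measure_iUnion_null hnull), add_zero]
  have hI2 : ∀ k, ENNReal.ofReal (cst Θ σ τ) * ∫⁻ z in W k, ENNReal.ofReal (ρ z) ≤ ENNReal.ofReal q *
      liminf (fun n => mn Θ σ τ ρ (W k) (lam n) (u n)) atTop := by
    intro k
    have hk0 : 0 < a * q ^ k := mul_pos ha (zpow_pos hq0 k)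
    have hk1 : a * q ^ (k + 1) = q * (a * q ^ k) := by
      rw [zpow_add_one₀ hq0.ne']; ring
    have h1 := piece hMV hΘ hms hτ hτ1 (Q := W k) (ρ := ρ) (m := a * q ^ k) (M := a * q ^ (k + 1))
      (hWo k) (hWb k)
      hk0 (fun z hz => ⟨hz.2.1.le, hz.2.2.le⟩) (hρc.mono (hWsub k)) (by rw [hk1]; nlinarith) hl
      (fun n => Sol.mono' (hu n) (hWsub k))
    have h2 : ∫⁻ z in W k, ENNReal.ofReal (ρ z) ≤ ENNReal.ofReal (a * q ^ (k + 1)) * volume (W k) := by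
      rw [← setLIntegral_const]
      exact setLIntegral_mono measurable_const fun z hz => ENNReal.ofReal_le_ofReal hz.2.2.le
    refine (mul_le_mul' le_rfl h2).trans ?_
    have h3 : ENNReal.ofReal (cst Θ σ τ) * (ENNReal.ofReal (a * q ^ (k + 1)) * volume (W k)) =
        ENNReal.ofReal q * ENNReal.ofReal (cst Θ σ τ * (a * q ^ k * volume.real (W k))) := by
      have h4 : volume (W k) = ENNReal.ofReal (volume.real (W k)) :=
        (ofReal_measureReal ((hWb k).measure_lt_top).ne).symm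
      rw [h4, ← ENNReal.ofReal_mul (by rw [hk1]; positivity), ← ENNReal.ofReal_mul (by positivity),
        ← ENNReal.ofReal_mul (by positivity), hk1]
      congr 1
      ring
    rw [h3]
    exact mul_le_mul' le_rfl h1
  have hI3 : ∑' k, liminf (fun n => mn Θ σ τ ρ (W k) (lam n) (u n)) atTop ≤
      liminf (fun n => mn Θ σ τ ρ U (lam n) (u n)) atTop := by
    have h1 := lintegral_liminf_le (μ := (Measure.count : Measure ℤ)) (u := (atTop : Filter ℕ))
      (f := fun n k => mn Θ σ τ ρ (W k) (lam n) (u n)) (fun n => measurable_of_countable _)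
    rw [lintegral_count] at h1
    refine h1.trans (liminf_le_liminf (Eventually.of_forall fun n => ?_))
    rw [lintegral_count]
    unfold mn
    simp only [div_eq_mul_inv]
    rw [ENNReal.tsum_add, ENNReal.tsum_mul_right, ENNReal.tsum_mul_left]
    refine add_le_add (mul_le_mul' ?_ le_rfl) (mul_le_mul' le_rfl ?_)
    · rw [← lintegral_iUnion (fun k => (hWo k).measurableSet) hWd]
      exact lintegral_mono_set (Set.iUnion_subset fun k => hWsub k)
    · rw [← lintegral_iUnion (fun k => sm_meas σ (hWo k) ((hu n).smooth.continuousOn.mono (hWsub k)))]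
      · exact lintegral_mono_set (Set.iUnion_subset fun k z hz => ⟨hWsub k hz.1, hz.2⟩)
      · intro i j hij
        exact (hWd hij).mono (fun z hz => hz.1) (fun z hz => hz.1)
  calc ENNReal.ofReal (cst Θ σ τ) * ∫⁻ z in U, ENNReal.ofReal (ρ z) ≤
      ENNReal.ofReal (cst Θ σ τ) * ∑' k, ∫⁻ z in W k, ENNReal.ofReal (ρ z) := mul_le_mul' le_rfl hI1
    _ = ∑' k, ENNReal.ofReal (cst Θ σ τ) * ∫⁻ z in W k, ENNReal.ofReal (ρ z) :=
      ENNReal.tsum_mul_left.symm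
    _ ≤ ∑' k, ENNReal.ofReal q * liminf (fun n => mn Θ σ τ ρ (W k) (lam n) (u n)) atTop :=
      ENNReal.tsum_le_tsum hI2
    _ = ENNReal.ofReal q * ∑' k, liminf (fun n => mn Θ σ τ ρ (W k) (lam n) (u n)) atTop :=
      ENNReal.tsum_mul_left
    _ ≤ _ := mul_le_mul' le_rfl hI3

theorem surf (hMV : S_MV) {Θ : ℝ → ℝ} {σ τ : ℝ} (hΘ : Wt Θ σ) (hms : 0 < ms Θ σ) (hτ : 0 < τ)
    (hτ1 : τ ≤ 1 / 10) {U : Set ℂ} {ρ : ℂ → ℝ} (hU : IsOpen U) (hρ : ∀ z ∈ U, 0 < ρ z)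
    (hρc : ContinuousOn ρ U) {lam : ℕ → ℝ} (hl : Tendsto lam atTop atTop)
    {u : ℕ → ℂ → ℝ} (hu : ∀ n, Sol U (fun z => lam n * ρ z) (u n)) :
    ENNReal.ofReal (cst Θ σ τ) * ∫⁻ z in U, ENNReal.ofReal (ρ z) ≤
      liminf (fun n => mn Θ σ τ ρ U (lam n) (u n)) atTop := by
  set L := liminf (fun n => mn Θ σ τ ρ U (lam n) (u n)) atTop with hL
  by_cases hLt : L = ⊤
  · rw [hLt]; exact le_top
  have h1 : ∀ R : ℕ, ∀ q : ℝ, 1 < q → q < 5 / 4 →
      ENNReal.ofReal (cst Θ σ τ) * ∫⁻ z in U ∩ ball 0 R, ENNReal.ofReal (ρ z) ≤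
        ENNReal.ofReal q * L := by
    intro R q hq1 hq2
    have hsub : U ∩ ball 0 (R : ℝ) ⊆ U := Set.inter_subset_left
    refine (bounded_case hMV hΘ hms hτ hτ1 (hU.inter isOpen_ball)
      (isBounded_ball.subset Set.inter_subset_right)
      (fun z hz => hρ z hz.1) (hρc.mono hsub) hl (fun n => Sol.mono' (hu n) hsub) hq1 hq2).trans ?_
    exact mul_le_mul' le_rfl (liminf_le_liminf (Eventually.of_forall fun n => mn_mono hsub _ _))
  have h2 : ∀ R : ℕ, ENNReal.ofReal (cst Θ σ τ) * ∫⁻ z in U ∩ ball 0 R, ENNReal.ofReal (ρ z) ≤ L := by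
    intro R
    have hcont : Tendsto (fun q : ℝ => ENNReal.ofReal q * L) (𝓝[>] 1) (𝓝 L) := by
      have h3 : Tendsto (fun q : ℝ => ENNReal.ofReal q) (𝓝[>] 1) (𝓝 (ENNReal.ofReal 1)) :=
        (ENNReal.continuous_ofReal.tendsto 1).mono_left (nhdsWithin_le_nhds (s := Set.Ioi 1))
      have h4 := ENNReal.Tendsto.mul_const (b := L) h3 (Or.inr hLt)
      simpa using h4
    refine ge_of_tendsto hcont ?_
    filter_upwards [Ioo_mem_nhdsGT (show (1 : ℝ) < 5 / 4 by norm_num)] with q hq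
    exact h1 R q hq.1 hq.2
  have h4 : U = ⋃ R : ℕ, U ∩ ball 0 (R : ℝ) := by
    rw [← Set.inter_iUnion, iUnion_ball_nat, Set.inter_univ]
  rw [h4, setLIntegral_iUnion_of_directed, ENNReal.mul_iSup]
  · exact iSup_le h2
  · refine Monotone.directed_le fun m n hmn => ?_
    exact Set.inter_subset_inter_right _ (ball_subset_ball (by exact_mod_cast hmn))

end Pool.Agent.Helper35.SV
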