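import Pool.Agent.Helper35.SV.Lin
import Pool.Graph.R_pool_sql_team_seeded_3997aac3.Q73.PW.J10

/-!
# Small values: the linear inequality in a chart, test functions
-/

set_option autoImplicit false
open MeasureTheory Filter Topology Complex Metric
open scoped ContDiff ENNReal

namespace Pool.Agent.Helper35.SV

open Pool.Agent.Q73.NL (dx dy lap Sol nod gr)
open Pool.Agent.Q73.PW (Seq U1 U2)
open Pool.Agent.Q73.PW.J10 (test_zero cont_mul integ_mul integ_mul2)
open Pool.Agent.Results.MP_a52643_an.AbsoluteContinuity (lapl LocL2 Test)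

theorem seq_sol {Ω : Set ℂ} {ρ : ℂ → ℝ} {lam : ℕ → ℝ} {u : ℕ → ℂ → ℝ} (hS : Seq Ω ρ lam u) (n : ℕ) :
    Sol Ω (fun z => lam n * ρ z) (u n) :=
  ⟨hS.hu n, fun z hz => by
    have h1 := hS.he n z hz
    have h2 : lap (u n) z = lapl (u n) z := rfl
    rw [h2, mul_assoc]
    exact h1⟩

theorem gr_cont {Ω : Set ℂ} {u : ℂ → ℝ} (hΩ : IsOpen Ω) (hu : ContDiffOn ℝ ∞ u Ω) :
    ContinuousOn (gr u) Ω :=
  (((dxc hΩ hu 1).pow 2).add ((dxc hΩ hu I).pow 2)).sqrt

/-- integrals against a test function -/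
theorem lint_test {Ω : Set ℂ} {χ F : ℂ → ℝ} (hΩ : IsOpen Ω) (h : Test Ω χ) (hF : ContinuousOn F Ω)
    (hF0 : ∀ z ∈ Ω, 0 ≤ F z) :
    ∫⁻ z in Ω, ENNReal.ofReal (F z) * ENNReal.ofReal (χ z) = ENNReal.ofReal (∫ z, χ z * F z) := by
  have h1 : ∫ z, χ z * F z = ∫ z in Ω, χ z * F z := by
    refine (setIntegral_eq_integral_of_forall_compl_eq_zero fun z hz => ?_).symm
    rw [test_zero h hz, zero_mul]
  rw [h1, ofReal_integral_eq_lintegral_ofReal (integ_mul hΩ h hF).integrableOn]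
  · refine setLIntegral_congr_fun hΩ.measurableSet fun z hz => ?_
    rw [mul_comm, ENNReal.ofReal_mul (h.2.2.2 z)]
  · refine (ae_restrict_iff' hΩ.measurableSet).2 (ae_of_all _ fun z hz => ?_)
    exact mul_nonneg (h.2.2.2 z) (hF0 z hz)

theorem iv_meas (σ : ℝ) : Measurable (iv σ) :=
  measurable_one.indicator (measurableSet_le measurable_norm measurable_const)

theorem iv_nonneg (σ x : ℝ) : 0 ≤ iv σ x := by
  unfold iv
  exact Set.indicator_nonneg (fun _ _ => zero_le_one) _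

theorem iv_le (σ x : ℝ) : iv σ x ≤ 1 := by
  unfold iv
  by_cases h : x ∈ {x : ℝ | |x| ≤ 162 * σ}
  · rw [Set.indicator_of_mem h]; exact le_rfl
  · rw [Set.indicator_of_notMem h]; exact zero_le_one

theorem iv_integ {Ω : Set ℂ} {χ ρ u : ℂ → ℝ} (σ : ℝ) (hΩ : IsOpen Ω) (h : Test Ω χ)
    (hρ : ContinuousOn ρ Ω) (hu : ContinuousOn u Ω) :
    Integrable (fun z => χ z * ρ z * iv σ (u z)) := by
  have h1 : (fun z => χ z * ρ z * iv σ (u z)) = (sm σ u Ω).indicator (fun z => χ z * ρ z) := by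
    funext z
    by_cases hz : z ∈ Ω
    · by_cases hu' : |u z| ≤ 162 * σ
      · rw [Set.indicator_of_mem (show z ∈ sm σ u Ω from ⟨hz, hu'⟩)]
        unfold iv
        rw [Set.indicator_of_mem (show u z ∈ {x : ℝ | |x| ≤ 162 * σ} from hu')]
        simp
      · rw [Set.indicator_of_notMem (fun h' : z ∈ sm σ u Ω => hu' h'.2)]
        unfold iv
        rw [Set.indicator_of_notMem (fun h' : u z ∈ {x : ℝ | |x| ≤ 162 * σ} => hu' h')]
        simp
    · rw [Set.indicator_of_notMem (fun h' : z ∈ sm σ u Ω => hz h'.1), test_zero h hz]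
      simp
  rw [h1]
  exact (integ_mul hΩ h hρ).indicator (sm_meas σ hΩ hu)

theorem iv_int {Ω : Set ℂ} {χ ρ u : ℂ → ℝ} (σ : ℝ) (hΩ : IsOpen Ω) (h : Test Ω χ)
    (hρ : ContinuousOn ρ Ω) (hρ0 : ∀ z ∈ Ω, 0 < ρ z) (hu : ContinuousOn u Ω) :
    ∫⁻ z in sm σ u Ω, ENNReal.ofReal (ρ z) * ENNReal.ofReal (χ z) =
      ENNReal.ofReal (∫ z, χ z * ρ z * iv σ (u z)) := by
  rw [ofReal_integral_eq_lintegral_ofReal (iv_integ σ hΩ h hρ hu)]
  · rw [← lintegral_indicator (sm_meas σ hΩ hu)]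
    refine lintegral_congr fun z => ?_
    by_cases hz : z ∈ Ω
    · by_cases hu' : |u z| ≤ 162 * σ
      · rw [Set.indicator_of_mem (show z ∈ sm σ u Ω from ⟨hz, hu'⟩)]
        unfold iv
        rw [Set.indicator_of_mem (show u z ∈ {x : ℝ | |x| ≤ 162 * σ} from hu'),
          ← ENNReal.ofReal_mul (hρ0 z hz).le]
        congr 1
        simp only [Pi.one_apply, mul_one]
        ring
      · rw [Set.indicator_of_notMem (fun h' : z ∈ sm σ u Ω => hu' h'.2)]
        unfold iv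
        rw [Set.indicator_of_notMem (fun h' : u z ∈ {x : ℝ | |x| ≤ 162 * σ} => hu' h')]
        simp
    · rw [Set.indicator_of_notMem (fun h' : z ∈ sm σ u Ω => hz h'.1), test_zero h hz]
      simp
  · refine ae_of_all _ fun z => ?_
    by_cases hz : z ∈ Ω
    · exact mul_nonneg (mul_nonneg (h.2.2.2 z) (hρ0 z hz).le) (iv_nonneg _ _)
    · simp only [test_zero h hz, zero_mul]
      exact le_rfl

theorem lin (hMV : S_MV) : S_LIN := by
  intro Ω ρ lam u hS χ hχ Θ σ hΘ hms τ hτ hτ1 η hη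
  have hc0 : 0 < cst Θ σ τ := cst_pos hms hτ1
  have hΩ := hS.hΩ
  have hρc := hS.hρ.continuousOn
  set c := cst Θ σ τ with hc
  set d := c * (4 / τ ^ 2) with hd
  have hd0 : 0 < d := by positivity
  set μ : Measure ℂ := (volume.restrict Ω).withDensity
    (fun z => ENNReal.ofReal c * ENNReal.ofReal (ρ z)) with hμ
  set d1 : ℕ → ℂ → ℝ≥0∞ := fun n z =>
    (ENNReal.ofReal √(lam n))⁻¹ * ENNReal.ofReal (√(ρ z) * (Θ (u n z) * gr (u n) z)) with hd1
  set μs : ℕ → Measure ℂ := fun n => (volume.restrict Ω).withDensity (d1 n) +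
    (volume.restrict (sm σ (u n) Ω)).withDensity
      (fun z => ENNReal.ofReal d * ENNReal.ofReal (ρ z)) with hμs
  have hev : ∀ᶠ n in atTop, 0 < lam n := hS.hlam.eventually_gt_atTop 0
  have hinv : ∀ n, 0 < lam n → (ENNReal.ofReal √(lam n))⁻¹ ≠ ⊤ := fun n hn => by
    rw [ENNReal.inv_ne_top]
    simpa using hn
  have h_opens : ∀ G, IsOpen G → μ G ≤ atTop.liminf (fun n => μs n G) := by
    intro G hG
    have hU : IsOpen (G ∩ Ω) := hG.inter hΩ
    have e1 : μ G = ENNReal.ofReal c * ∫⁻ z in G ∩ Ω, ENNReal.ofReal (ρ z) := by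
      rw [hμ, withDensity_apply _ hG.measurableSet, Measure.restrict_restrict hG.measurableSet,
        lintegral_const_mul' _ _ ENNReal.ofReal_ne_top]
    have e2 : ∀ᶠ n in atTop, mn Θ σ τ ρ (G ∩ Ω) (lam n) (u n) = μs n G := by
      filter_upwards [hev] with n hn
      rw [hμs]
      simp only
      rw [Measure.add_apply, withDensity_apply _ hG.measurableSet,
        withDensity_apply _ hG.measurableSet,
        Measure.restrict_restrict hG.measurableSet, Measure.restrict_restrict hG.measurableSet,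
        lintegral_const_mul' _ _ ENNReal.ofReal_ne_top, hd1]
      simp only
      rw [lintegral_const_mul' _ _ (hinv n hn)]
      unfold mn
      have e3 : sm σ (u n) (G ∩ Ω) = G ∩ sm σ (u n) Ω := by
        ext z
        simp only [sm, Set.mem_ofPred_eq, Set.mem_inter_iff]
        tauto
      rw [e3, ENNReal.div_eq_inv_mul]
    rw [e1, ← liminf_congr e2]
    exact surf hMV hΘ hms hτ hτ1 hU (fun z hz => hS.hρ0 z hz.2) (hρc.mono Set.inter_subset_right)
      hS.hlam (fun n => Sol.mono' (seq_sol hS n) Set.inter_subset_right)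
  have key := lintegral_le_liminf_lintegral_of_forall_isOpen_measure_le_liminf_measure
    (f := χ) hχ.1.continuous (fun z => hχ.2.2.2 z) h_opens
  have hχm : ∀ ν : Measure ℂ, AEMeasurable (fun z => ENNReal.ofReal (χ z)) ν := fun ν =>
    (ENNReal.measurable_ofReal.comp hχ.1.continuous.measurable).aemeasurable
  have hρm : AEMeasurable (fun z => ENNReal.ofReal (ρ z)) (volume.restrict Ω) :=
    (hρc.aemeasurable hΩ.measurableSet).ennreal_ofReal
  have hL : ∫⁻ z, ENNReal.ofReal (χ z) ∂μ = ENNReal.ofReal (c * ∫ z, χ z * ρ z) := by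
    rw [hμ, lintegral_withDensity_eq_lintegral_mul₀ (hρm.const_mul _) (hχm _)]
    simp only [Pi.mul_apply]
    simp_rw [mul_assoc]
    rw [lintegral_const_mul' _ _ ENNReal.ofReal_ne_top,
      lint_test hΩ hχ hρc (fun z hz => (hS.hρ0 z hz).le), ENNReal.ofReal_mul hc0.le]
  have hR : ∀ n, 0 < lam n → ∫⁻ z, ENNReal.ofReal (χ z) ∂(μs n) =
      ENNReal.ofReal ((∫ z, χ z * √(ρ z) * (Θ (u n z) * gr (u n) z)) / √(lam n)) +
        ENNReal.ofReal (d * ∫ z, χ z * ρ z * iv σ (u n z)) := by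
    intro n hn
    have hun := hS.hu n
    have cF : ContinuousOn (fun z => √(ρ z) * (Θ (u n z) * gr (u n) z)) Ω :=
      hρc.sqrt.mul ((hΘ.cont.comp_continuousOn hun.continuousOn).mul (gr_cont hΩ hun))
    have mF : AEMeasurable (fun z => ENNReal.ofReal (√(ρ z) * (Θ (u n z) * gr (u n) z)))
        (volume.restrict Ω) := (cF.aemeasurable hΩ.measurableSet).ennreal_ofReal
    rw [hμs]
    simp only
    rw [lintegral_add_measure, hd1]
    simp only
    rw [lintegral_withDensity_eq_lintegral_mul₀ (mF.const_mul _) (hχm _),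
      lintegral_withDensity_eq_lintegral_mul₀ ((hρm.mono_measure
        (Measure.restrict_mono (fun z hz => hz.1) le_rfl)).const_mul _) (hχm _)]
    simp only [Pi.mul_apply]
    simp_rw [mul_assoc]
    rw [lintegral_const_mul' _ _ (hinv n hn), lintegral_const_mul' _ _ ENNReal.ofReal_ne_top,
      lint_test hΩ hχ cF (fun z _ => mul_nonneg (Real.sqrt_nonneg _) (mul_nonneg (hΘ.nn _)
        (Real.sqrt_nonneg _))), iv_int σ hΩ hχ hρc hS.hρ0 hun.continuousOn, ENNReal.ofReal_mul hd0.le]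
    congr 1
    · rw [← ENNReal.ofReal_inv_of_pos (Real.sqrt_pos.2 hn), ← ENNReal.ofReal_mul (by positivity),
        div_eq_inv_mul]
    · simp_rw [mul_assoc]
  rw [hL] at key
  -- conclusion
  have hI0 : ∀ n, 0 ≤ ∫ z, χ z * √(ρ z) * (Θ (u n z) * gr (u n) z) := fun n =>
    integral_nonneg fun z => mul_nonneg (mul_nonneg (hχ.2.2.2 z) (Real.sqrt_nonneg _))
      (mul_nonneg (hΘ.nn _) (Real.sqrt_nonneg _))
  have hJ0 : ∀ n, 0 ≤ ∫ z, χ z * ρ z * iv σ (u n z) := fun n => by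
    refine integral_nonneg fun z => ?_
    by_cases hz : z ∈ Ω
    · exact mul_nonneg (mul_nonneg (hχ.2.2.2 z) (hS.hρ0 z hz).le) (iv_nonneg _ _)
    · simp only [test_zero hχ hz, zero_mul]
      exact le_rfl
  by_cases hcase : c * (∫ z, χ z * ρ z) - η < 0
  · filter_upwards [hev] with n hn
    have h1 : 0 ≤ (∫ z, χ z * √(ρ z) * (Θ (u n z) * gr (u n) z)) / √(lam n) :=
      div_nonneg (hI0 n) (Real.sqrt_nonneg _)
    have h2 := hJ0 n
    have h3 : c * ((∫ z, χ z * ρ z) - 4 / τ ^ 2 * ∫ z, χ z * ρ z * iv σ (u n z)) =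
        c * (∫ z, χ z * ρ z) - d * ∫ z, χ z * ρ z * iv σ (u n z) := by rw [hd]; ring
    show c * ((∫ z, χ z * ρ z) - 4 / τ ^ 2 * ∫ z, χ z * ρ z * iv σ (u n z)) ≤ _
    rw [h3]
    have h4 := mul_nonneg hd0.le h2
    linarith
  · push Not at hcase
    have hlt : ENNReal.ofReal (c * (∫ z, χ z * ρ z) - η) < ENNReal.ofReal (c * ∫ z, χ z * ρ z) := by
      rw [ENNReal.ofReal_lt_ofReal_iff (by linarith)]
      linarith
    filter_upwards [eventually_lt_of_lt_liminf (lt_of_lt_of_le hlt key), hev] with n h1 hn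
    rw [hR n hn, ← ENNReal.ofReal_add (div_nonneg (hI0 n) (Real.sqrt_nonneg _))
      (mul_nonneg hd0.le (hJ0 n))] at h1
    have h2 := (ENNReal.ofReal_lt_ofReal_iff_of_nonneg hcase).1 h1
    have h3 : c * ((∫ z, χ z * ρ z) - 4 / τ ^ 2 * ∫ z, χ z * ρ z * iv σ (u n z)) =
        c * (∫ z, χ z * ρ z) - d * ∫ z, χ z * ρ z * iv σ (u n z) := by rw [hd]; ring
    show c * ((∫ z, χ z * ρ z) - 4 / τ ^ 2 * ∫ z, χ z * ρ z * iv σ (u n z)) ≤ _
    rw [h3]
    linarith

end Pool.Agent.Helper35.SV
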