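import Pool.Agent.Helper35.SV.Lin2
import Pool.Agent.Helper35.SV.EN

/-!
# Small values: the local inequality
-/

set_option autoImplicit false
open MeasureTheory Filter Topology Complex Metric
open scoped ContDiff ENNReal

namespace Pool.Agent.Helper35.SV

open Pool.Agent.Q73.NL (dx dy lap Sol nod gr)
open Pool.Agent.Q73.PW (Seq U1 U2)
open Pool.Agent.Q73.PW.J10 (test_zero cont_mul integ_mul integ_mul2)
open Pool.Agent.Q73.PW.J9 (cd1 cd2)
open Pool.Agent.Results.MP_a52643_an.AbsoluteContinuity (lapl LocL2 Test)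

theorem cs_aux {P a G : ℝ} (ha : 0 ≤ a) (hG : 0 ≤ G) (h : ∀ t : ℝ, 0 < t → P ≤ (t * a + G / t) / 2) :
    P ≤ √a * √G := by
  refine le_of_forall_pos_le_add fun ε hε => ?_
  obtain ⟨δ, hδ, hδε⟩ : ∃ δ : ℝ, 0 < δ ∧ δ * (√a + √G) / 2 ≤ ε := by
    refine ⟨ε / (√a + √G + 1), by positivity, ?_⟩
    have : 0 < √a + √G + 1 := by positivity
    rw [div_mul_eq_mul_div, div_div, div_le_iff₀ (by positivity)]
    nlinarith [Real.sqrt_nonneg a, Real.sqrt_nonneg G]
  have h1 := h ((√G + δ) / (√a + δ)) (by positivity)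
  have ea : √a * √a = a := Real.mul_self_sqrt ha
  have eG : √G * √G = G := Real.mul_self_sqrt hG
  have h2 : (√G + δ) / (√a + δ) * a ≤ (√G + δ) * √a := by
    rw [div_mul_eq_mul_div, div_le_iff₀ (by positivity)]
    have : (√G + δ) * a = (√G + δ) * (√a * √a) := by rw [ea]
    rw [this]
    have h0 : 0 ≤ (√G + δ) * √a * δ := by positivity
    nlinarith
  have h3 : G / ((√G + δ) / (√a + δ)) ≤ √G * (√a + δ) := by
    rw [div_div_eq_mul_div, div_le_iff₀ (by positivity)]
    have : G * (√a + δ) = (√G * √G) * (√a + δ) := by rw [eG]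
    rw [this]
    have h0 : 0 ≤ √G * (√a + δ) * δ := by positivity
    nlinarith
  nlinarith

theorem sqrt_add_le' {x y : ℝ} (hx : 0 ≤ x) (hy : 0 ≤ y) : √(x + y) ≤ √x + √y := by
  rw [Real.sqrt_le_left (by positivity), add_sq, Real.sq_sqrt hx, Real.sq_sqrt hy]
  have : 0 ≤ 2 * √x * √y := by positivity
  linarith

theorem loc (hMV : S_MV) : S_LOC := by
  intro Ω ρ lam u hS χ hχ Θ σ hΘ hms τ hτ hτ1 η hη
  obtain ⟨C, hC⟩ := en Ω ρ lam u hS χ hχ Θ σ hΘ
  have hΩ := hS.hΩ
  have hρc := hS.hρ.continuousOn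
  set a0 := ∫ z, χ z * ρ z with ha0
  have ha00 : 0 ≤ a0 := integral_nonneg fun z => by
    by_cases hz : z ∈ Ω
    · exact mul_nonneg (hχ.2.2.2 z) (hS.hρ0 z hz).le
    · simp only [test_zero hχ hz, zero_mul]; exact le_rfl
  have hlim : Tendsto (fun n => √a0 * √(|C| / √(lam n))) atTop (𝓝 0) := by
    have h1 : Tendsto (fun n => |C| / √(lam n)) atTop (𝓝 0) :=
      tendsto_const_nhds.div_atTop (Real.tendsto_sqrt_atTop.comp hS.hlam)
    have h2 := (Real.continuous_sqrt.tendsto 0).comp h1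
    rw [Real.sqrt_zero] at h2
    simpa using h2.const_mul (√a0)
  filter_upwards [hC, lin hMV Ω ρ lam u hS χ hχ Θ σ hΘ hms τ hτ hτ1 (η / 2) (by positivity),
    hlim.eventually (gt_mem_nhds (show (0 : ℝ) < η / 2 by positivity)),
    hS.hlam.eventually_gt_atTop 0] with n h1 h2 h3 hn
  refine h2.trans ?_
  have hun := hS.hu n
  have hs : 0 < √(lam n) := Real.sqrt_pos.2 hn
  have hsq : √(lam n) ^ 2 = lam n := Real.sq_sqrt hn.le
  set P := ∫ z, χ z * √(ρ z) * (Θ (u n z) * gr (u n) z) with hP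
  set G := ∫ z, χ z * Θ (u n z) * (U1 (u n) z ^ 2 + U2 (u n) z ^ 2) with hG
  set a := ∫ z, χ z * ρ z * Θ (u n z) with ha
  set b := ms Θ σ / 2 * ∫ z, χ z * ρ z * |u n z| with hb
  have cΘ : ContinuousOn (fun z => Θ (u n z)) Ω := hΘ.cont.comp_continuousOn hun.continuousOn
  have ia : Integrable (fun z => χ z * ρ z * Θ (u n z)) := integ_mul2 hΩ hχ hρc cΘ
  have iG : Integrable (fun z => χ z * Θ (u n z) * (U1 (u n) z ^ 2 + U2 (u n) z ^ 2)) :=
    integ_mul2 hΩ hχ cΘ (((cd1 hΩ hun).continuousOn.pow 2).add ((cd2 hΩ hun).continuousOn.pow 2))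
  have iP : Integrable (fun z => χ z * √(ρ z) * (Θ (u n z) * gr (u n) z)) :=
    integ_mul2 hΩ hχ hρc.sqrt (cΘ.mul (gr_cont hΩ hun))
  have hG0 : 0 ≤ G := integral_nonneg fun z =>
    mul_nonneg (mul_nonneg (hχ.2.2.2 z) (hΘ.nn _)) (by positivity)
  have ha1 : 0 ≤ a := integral_nonneg fun z => by
    by_cases hz : z ∈ Ω
    · exact mul_nonneg (mul_nonneg (hχ.2.2.2 z) (hS.hρ0 z hz).le) (hΘ.nn _)
    · simp only [test_zero hχ hz, zero_mul]; exact le_rfl
  have hb1 : 0 ≤ b := mul_nonneg (by linarith) (integral_nonneg fun z => by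
    by_cases hz : z ∈ Ω
    · exact mul_nonneg (mul_nonneg (hχ.2.2.2 z) (hS.hρ0 z hz).le) (abs_nonneg _)
    · simp only [test_zero hχ hz, zero_mul]; exact le_rfl)
  have haa : a ≤ a0 := by
    have i0 : Integrable (fun z => χ z * ρ z) := integ_mul hΩ hχ hρc
    refine integral_mono ia i0 fun z => ?_
    show χ z * ρ z * Θ (u n z) ≤ χ z * ρ z
    by_cases hz : z ∈ Ω
    · exact mul_le_of_le_one_right (mul_nonneg (hχ.2.2.2 z) (hS.hρ0 z hz).le) (hΘ.le _)
    · simp only [test_zero hχ hz, zero_mul]; exact le_rfl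
  have hPG : P ≤ √a * √G := by
    refine cs_aux ha1 hG0 fun t ht => ?_
    have hR : ∫ z, (t / 2 * (χ z * ρ z * Θ (u n z)) +
        1 / (2 * t) * (χ z * Θ (u n z) * (U1 (u n) z ^ 2 + U2 (u n) z ^ 2))) = (t * a + G / t) / 2 := by
      rw [integral_add (ia.const_mul _) (iG.const_mul _), integral_const_mul, integral_const_mul,
        ← ha, ← hG]
      field_simp
    rw [← hR]
    refine integral_mono iP ((ia.const_mul _).add (iG.const_mul _)) fun z => ?_
    show χ z * √(ρ z) * (Θ (u n z) * gr (u n) z) ≤ t / 2 * (χ z * ρ z * Θ (u n z)) +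
        1 / (2 * t) * (χ z * Θ (u n z) * (U1 (u n) z ^ 2 + U2 (u n) z ^ 2))
    by_cases hz : z ∈ Ω
    · have e1 : U1 (u n) z ^ 2 + U2 (u n) z ^ 2 = gr (u n) z ^ 2 := by
        unfold gr
        rw [Real.sq_sqrt (by positivity)]
        rfl
      have e2 : ρ z = √(ρ z) ^ 2 := (Real.sq_sqrt (hS.hρ0 z hz).le).symm
      have h0 : 0 ≤ χ z * Θ (u n z) := mul_nonneg (hχ.2.2.2 z) (hΘ.nn _)
      rw [e1]
      set r := √(ρ z)
      set g := gr (u n) z
      rw [e2]
      have h4 : r * g ≤ t / 2 * r ^ 2 + 1 / (2 * t) * g ^ 2 := by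
        have h5 : t / 2 * r ^ 2 + 1 / (2 * t) * g ^ 2 - r * g = (t * r - g) ^ 2 / (2 * t) := by
          field_simp
          ring
        have : 0 ≤ (t * r - g) ^ 2 / (2 * t) := by positivity
        linarith
      have h6 := mul_le_mul_of_nonneg_left h4 h0
      linarith
    · simp only [test_zero hχ hz, zero_mul]
      simp
  have hG2 : √G ≤ √(lam n) * (√b + √(|C| / √(lam n))) := by
    have h4 : G ≤ lam n * (b + |C| / √(lam n)) := by
      have h5 : lam n * (|C| / √(lam n)) = |C| * √(lam n) := by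
        field_simp
        rw [hsq]
        ring
      rw [mul_add, h5]
      refine h1.trans ?_
      have := mul_le_mul_of_nonneg_right (le_abs_self C) hs.le
      linarith
    refine (Real.sqrt_le_sqrt h4).trans ?_
    rw [Real.sqrt_mul hn.le]
    refine mul_le_mul_of_nonneg_left ?_ hs.le
    exact sqrt_add_le' hb1 (by positivity)
  have h7 : P / √(lam n) ≤ √a * (√b + √(|C| / √(lam n))) := by
    rw [div_le_iff₀ hs]
    refine hPG.trans ?_
    have := mul_le_mul_of_nonneg_left hG2 (Real.sqrt_nonneg a)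
    linarith
  have h8 : √a * √(|C| / √(lam n)) ≤ √a0 * √(|C| / √(lam n)) :=
    mul_le_mul_of_nonneg_right (Real.sqrt_le_sqrt haa) (Real.sqrt_nonneg _)
  have h9 : √a * (√b + √(|C| / √(lam n))) = √a * √b + √a * √(|C| / √(lam n)) := by ring
  linarith

end Pool.Agent.Helper35.SV
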