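import Pool.Agent.Helper35.SV.CR
import Pool.Agent.Helper35.SV.Bad
import Pool.Graph.R_pool_sql_team_seeded_3997aac3.Q73.NL.F1

/-!
# Small values: the main inequality
-/

set_option autoImplicit false
open MeasureTheory Filter Topology Complex Metric
open scoped ContDiff ENNReal

namespace Pool.Agent.Helper35.SV

open Pool.Agent.Q73.NL (dx dy lap Sol nod gr near bdy near_mono bdy_mono nonempty_A int_s_sin int_sin t9f
  fubini sn cs sn_cont cs_cont sn_mem cs_mem)

theorem bad_vol {E : Set ℂ} (hE : MeasurableSet E) {t c : ℝ} (ht : 0 < t) (hc : 0 < c) :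
    volume {x : ℂ | ENNReal.ofReal c ≤ volume (ball x t ∩ E)} ≤
      ENNReal.ofReal (Real.pi * t ^ 2 / c) * volume E := by
  have hpi := Real.pi_pos
  set S : Set (ℂ × ℂ) := {p | dist p.1 p.2 < t ∧ p.2 ∈ E} with hS
  have hSm : MeasurableSet S := by
    have h1 : MeasurableSet {p : ℂ × ℂ | dist p.1 p.2 < t} :=
      measurableSet_lt (measurable_fst.dist measurable_snd) measurable_const
    exact h1.inter (measurable_snd hE)
  have e1 : ∀ x : ℂ, Prod.mk x ⁻¹' S = ball x t ∩ E := by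
    intro x
    ext y
    simp only [hS, Set.mem_preimage, Set.mem_ofPred_eq, Set.mem_inter_iff, mem_ball]
    rw [dist_comm]
  have hFm : Measurable fun x : ℂ => volume (ball x t ∩ E) := by
    have := measurable_measure_prodMk_left (ν := (volume : Measure ℂ)) hSm
    simp_rw [e1] at this
    exact this
  have hint : ∫⁻ x : ℂ, volume (ball x t ∩ E) = ENNReal.ofReal (Real.pi * t ^ 2) * volume E := by
    have h1 := Measure.prod_apply (μ := (volume : Measure ℂ)) (ν := (volume : Measure ℂ)) hSm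
    simp_rw [e1] at h1
    rw [← h1, Measure.prod_apply_symm hSm]
    have h2 : ∀ y : ℂ, volume ((fun x => (x, y)) ⁻¹' S) =
        E.indicator (fun _ => ENNReal.ofReal (Real.pi * t ^ 2)) y := by
      intro y
      by_cases hy : y ∈ E
      · rw [Set.indicator_of_mem hy]
        have h3 : (fun x => (x, y)) ⁻¹' S = ball y t := by
          ext x
          simp only [hS, Set.mem_preimage, Set.mem_ofPred_eq, mem_ball]
          tauto
        rw [h3, Complex.volume_ball, mul_comm, ENNReal.ofReal_mul hpi.le, ENNReal.ofReal_pow ht.le]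
        congr 1
        rw [← NNReal.coe_real_pi, ENNReal.ofReal_coe_nnreal]
      · rw [Set.indicator_of_notMem hy]
        have h3 : (fun x => (x, y)) ⁻¹' S = ∅ := by
          ext x
          simp only [hS, Set.mem_preimage, Set.mem_ofPred_eq, Set.mem_empty_iff_false, iff_false]
          tauto
        rw [h3, measure_empty]
    simp_rw [h2]
    rw [lintegral_indicator hE, setLIntegral_const]
  have hMk := mul_meas_ge_le_lintegral (μ := (volume : Measure ℂ)) hFm (ENNReal.ofReal c)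
  rw [hint] at hMk
  have hc2 : ENNReal.ofReal c ≠ 0 := by
    rw [Ne, ENNReal.ofReal_eq_zero, not_le]; exact hc
  have h6 : ENNReal.ofReal (Real.pi * t ^ 2) =
      ENNReal.ofReal c * ENNReal.ofReal (Real.pi * t ^ 2 / c) := by
    rw [← ENNReal.ofReal_mul hc.le]
    congr 1
    field_simp
  rw [h6, mul_assoc, ENNReal.mul_le_mul_iff_right hc2 ENNReal.ofReal_ne_top] at hMk
  exact hMk

theorem cos_low {x : ℝ} (h0 : 0 ≤ x) (h1 : x ≤ 4 * Real.pi / 9) : 1 ≤ 81 * Real.cos x ^ 2 := by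
  have hpi := Real.pi_pos
  have h2 : Real.cos (4 * Real.pi / 9) ≤ Real.cos x :=
    Real.cos_le_cos_of_nonneg_of_le_pi h0 (by linarith) h1
  have h3 : Real.cos (4 * Real.pi / 9) = Real.sin (Real.pi / 18) := by
    rw [← Real.cos_pi_div_two_sub]; congr 1; ring
  have h4 : 2 / Real.pi * (Real.pi / 18) ≤ Real.sin (Real.pi / 18) :=
    Real.mul_le_sin (by positivity) (by linarith)
  have h5 : 2 / Real.pi * (Real.pi / 18) = 1 / 9 := by field_simp; norm_num
  rw [h5, ← h3] at h4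
  have h6 : 1 / 9 ≤ Real.cos x := h4.trans h2
  nlinarith

theorem near_le' (hMV : S_MV) {Ω : Set ℂ} {V u : ℂ → ℝ} {Θ : ℝ → ℝ} {σ κ τ : ℝ} (hΩ : IsOpen Ω)
    (hb : Bornology.IsBounded Ω) (hu : Sol Ω V u) (hΘ : Wt Θ σ) (hm : 0 < ms Θ σ) (hκ : 0 < κ)
    (hτ : 0 < τ) (hτ1 : τ ≤ 1 / 10) (hV : ∀ z ∈ Ω, κ ^ 2 ≤ V z ∧ V z ≤ 5 / 4 * κ ^ 2)
    (hI : ∫⁻ z in Ω, ENNReal.ofReal (Θ (u z) * gr u z) ≠ ⊤) {s : ℝ} (hs : 0 < s)
    (hs1 : s ≤ Real.pi / 2) :
    near κ Ω (nod Ω u ∪ Ωᶜ) s ≤ bdy κ Ω (Real.pi / 2 / (1 - τ)) +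
      2 / τ ^ 2 * volume.real {z | z ∈ Ω ∧ |u z| ≤ 162 * σ} +
      2 * (s / (κ * (1 - τ))) / ms Θ σ * (∫⁻ z in Ω, ENNReal.ofReal (Θ (u z) * gr u z)).toReal := by
  have hpi := Real.pi_pos
  have hc : 0 < 1 - τ := by linarith
  set t : ℝ := s / (κ * (1 - τ)) with ht
  have ht0 : 0 < t := by positivity
  set E : Set ℂ := {z | z ∈ Ω ∧ |u z| ≤ 162 * σ} with hE
  have hEm : MeasurableSet E := by
    have h1 : IsOpen {z | z ∈ Ω ∧ 162 * σ < |u z|} := by
      have := (hu.smooth.continuousOn.abs).isOpen_inter_preimage hΩ (isOpen_Ioi (a := 162 * σ))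
      exact this
    have h2 : E = Ω \ {z | z ∈ Ω ∧ 162 * σ < |u z|} := by
      ext z
      simp only [hE, Set.mem_ofPred_eq, Set.mem_sdiff, not_and, not_lt]
      tauto
    rw [h2]
    exact hΩ.measurableSet.diff h1.measurableSet
  set G : Set ℂ := {x | closedBall x t ⊆ Ω ∧ (∃ z ∈ sphere x t, σ ≤ u z) ∧
    (∃ z ∈ sphere x t, u z ≤ -σ)} with hG
  set Bd : Set ℂ := {x : ℂ | ENNReal.ofReal (Real.pi * τ ^ 2 * t ^ 2 / 2) ≤ volume (ball x t ∩ E)}
    with hBd
  set N : Set ℂ := {z | z ∈ Ω ∧ infDist z Ωᶜ ≤ Real.pi / 2 / (1 - τ) / κ} with hN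
  have hsub : {z | z ∈ Ω ∧ κ * infDist z (nod Ω u ∪ Ωᶜ) < s} ⊆ N ∪ Bd ∪ G := by
    rintro z ⟨hz, hzs⟩
    by_cases hd : infDist z Ωᶜ ≤ t
    · left; left
      refine ⟨hz, hd.trans ?_⟩
      rw [ht, div_div (Real.pi / 2), mul_comm (1 - τ)]
      exact div_le_div_of_nonneg_right hs1 (by positivity)
    push Not at hd
    have hcb : closedBall z t ⊆ Ω := by
      intro w hw
      by_contra hwΩ
      have h4 : infDist z Ωᶜ ≤ dist z w := infDist_le_dist_of_mem hwΩ
      rw [mem_closedBall, dist_comm] at hw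
      linarith
    have hct : (1 - τ) * t = s / κ := by rw [ht]; field_simp
    have hlt : infDist z (nod Ω u ∪ Ωᶜ) < (1 - τ) * t := by
      rw [hct, lt_div_iff₀ hκ]
      linarith
    obtain ⟨y, hy, hyd⟩ := (infDist_lt_iff ((nonempty_A hb).mono Set.subset_union_right)).1 hlt
    have hyb : y ∈ ball z ((1 - τ) * t) := by rwa [mem_ball, dist_comm]
    have hyb2 : y ∈ ball z t := ball_subset_ball (by nlinarith) hyb
    have hy0 : u y = 0 := by
      rcases hy with hy | hy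
      · exact hy.2
      · exact absurd (hcb (ball_subset_closedBall hyb2)) hy
    by_cases hg : (∃ z' ∈ sphere z t, σ ≤ u z') ∧ (∃ z' ∈ sphere z t, u z' ≤ -σ)
    · right; exact ⟨hcb, hg⟩
    · left; right
      have hat : 4 / 5 * κ * t ≤ 4 * Real.pi / 9 := by
        have h1 : 4 / 5 * κ * t = 4 / 5 * s / (1 - τ) := by rw [ht]; field_simp
        rw [h1, div_le_iff₀ hc]
        nlinarith
      have hbad := bad hMV Ω V u z t (4 / 5 * κ) 81 σ τ hΩ hu ht0 (by positivity) (by linarith)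
        hΘ.pos hτ (by linarith) (cos_low (by positivity) hat) (fun z hz => ⟨(sq_nonneg κ).trans (hV z hz).1, by
          have := (hV z hz).2
          nlinarith [pow_pos hκ 2]⟩) hcb ⟨y, hyb, hy0⟩ (by
          by_contra h
          push Not at h
          exact hg ⟨h.1, h.2⟩)
      rw [hBd, Set.mem_ofPred_eq]
      refine hbad.trans (measure_mono ?_)
      rintro w ⟨hw1, hw2⟩
      refine ⟨hw1, hcb (ball_subset_closedBall hw1), ?_⟩
      rw [Set.mem_ofPred_eq] at hw2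
      linarith
  have hEf : volume E ≠ ⊤ := ((measure_mono fun z (hz : z ∈ E) => hz.1).trans_lt hb.measure_lt_top).ne
  have hNf : volume N ≠ ⊤ := ((measure_mono fun z (hz : z ∈ N) => hz.1).trans_lt hb.measure_lt_top).ne
  have hB1 := bad_vol hEm ht0 (c := Real.pi * τ ^ 2 * t ^ 2 / 2) (by positivity)
  have hB2 : ENNReal.ofReal (Real.pi * t ^ 2 / (Real.pi * τ ^ 2 * t ^ 2 / 2)) * volume E ≠ ⊤ :=
    ENNReal.mul_ne_top ENNReal.ofReal_ne_top hEf
  have hBf : volume Bd ≠ ⊤ := ne_top_of_le_ne_top hB2 hB1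
  have hB3 : volume.real Bd ≤ 2 / τ ^ 2 * volume.real E := by
    have h1 := ENNReal.toReal_mono hB2 hB1
    rw [ENNReal.toReal_mul, ENNReal.toReal_ofReal (by positivity)] at h1
    refine h1.trans (le_of_eq ?_)
    have h2 : Real.pi * t ^ 2 / (Real.pi * τ ^ 2 * t ^ 2 / 2) = 2 / τ ^ 2 := by field_simp
    rw [h2]
    rfl
  have hG1 := cr Ω u Θ σ t hΩ hu.smooth hΘ hm ht0
  have hG2 := ENNReal.mul_ne_top (ENNReal.ofReal_ne_top (r := 2 * t / ms Θ σ)) hI
  have hGf : volume G ≠ ⊤ := ne_top_of_le_ne_top hG2 hG1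
  have hG3 : volume.real G ≤ 2 * t / ms Θ σ *
      (∫⁻ z in Ω, ENNReal.ofReal (Θ (u z) * gr u z)).toReal := by
    have h1 := ENNReal.toReal_mono hG2 hG1
    rwa [ENNReal.toReal_mul, ENNReal.toReal_ofReal (by positivity)] at h1
  have h10 : near κ Ω (nod Ω u ∪ Ωᶜ) s ≤ volume.real (N ∪ Bd ∪ G) :=
    measureReal_mono hsub (measure_union_ne_top (measure_union_ne_top hNf hBf) hGf)
  have h11 := measureReal_union_le (μ := volume) (N ∪ Bd) G
  have h12 := measureReal_union_le (μ := volume) N Bd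
  have h13 : volume.real N = bdy κ Ω (Real.pi / 2 / (1 - τ)) := rfl
  linarith

theorem main_ineq (hMV : S_MV) : S_MAIN := by
  intro Ω V u Θ σ κ τ hΩ hb hu hΘ hm hκ hτ hτ1 hV hVc
  by_cases hI : ∫⁻ z in Ω, ENNReal.ofReal (Θ (u z) * gr u z) = ⊤
  · rw [hI]; exact le_top
  rw [← ENNReal.ofReal_toReal hI]
  refine ENNReal.ofReal_le_ofReal ?_
  set J := (∫⁻ z in Ω, ENNReal.ofReal (Θ (u z) * gr u z)).toReal with hJ
  have hpi := Real.pi_pos
  have hc : 0 < 1 - τ := by linarith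
  have hpi2 : (0 : ℝ) ≤ Real.pi / 2 := by positivity
  have h9' := t9f Ω V u κ hΩ hb hu hκ (fun z hz => (hV z hz).1) hVc
  have hF := fubini κ hκ.le Ω (nod Ω u ∪ Ωᶜ) hb
  have hfin : volume Ω ≠ ⊤ := (hb.measure_lt_top).ne
  have hfm : IsFiniteMeasure (volume.restrict Ω) :=
    ⟨by rw [Measure.restrict_apply_univ]; exact hfin.lt_top⟩
  have hs2 : Integrable (fun z => sn κ (nod Ω u ∪ Ωᶜ) z ^ 2) (volume.restrict Ω) :=
    Integrable.of_bound ((sn_cont κ _).pow 2).aestronglyMeasurable 1 (Eventually.of_forall fun z => by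
      rw [Real.norm_eq_abs, abs_pow]; exact pow_le_one₀ (abs_nonneg _) (sn_mem _ z))
  have hc2 : Integrable (fun z => cs κ (nod Ω u ∪ Ωᶜ) z ^ 2) (volume.restrict Ω) :=
    Integrable.of_bound ((cs_cont κ _).pow 2).aestronglyMeasurable 1 (Eventually.of_forall fun z => by
      rw [Real.norm_eq_abs, abs_pow]; exact pow_le_one₀ (abs_nonneg _) (cs_mem _ z))
  rw [integral_sub hc2 hs2] at hF
  set b0 := bdy κ Ω (Real.pi / 2 / (1 - τ)) with hb0
  set e0 := volume.real {z | z ∈ Ω ∧ |u z| ≤ 162 * σ} with he0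
  have hsc : Continuous fun s : ℝ => 2 * Real.sin (2 * s) := by fun_prop
  have in1 : IntervalIntegrable (fun s => (2 * Real.sin (2 * s)) * near κ Ω (nod Ω u ∪ Ωᶜ) s)
      volume 0 (Real.pi / 2) :=
    ((near_mono hb).intervalIntegrable).continuousOn_mul hsc.continuousOn
  have in2 : IntervalIntegrable (fun s => (2 * Real.sin (2 * s)) * (b0 + 2 / τ ^ 2 * e0))
      volume 0 (Real.pi / 2) := (hsc.mul continuous_const).intervalIntegrable _ _
  have in3 : IntervalIntegrable (fun s => J / (κ * (1 - τ) * ms Θ σ) * (4 * s * Real.sin (2 * s)))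
      volume 0 (Real.pi / 2) :=
    (by fun_prop : Continuous fun s : ℝ =>
      J / (κ * (1 - τ) * ms Θ σ) * (4 * s * Real.sin (2 * s))).intervalIntegrable _ _
  have hle : ∫ s in (0 : ℝ)..(Real.pi / 2), (2 * Real.sin (2 * s)) * near κ Ω (nod Ω u ∪ Ωᶜ) s ≤
      ∫ s in (0 : ℝ)..(Real.pi / 2), ((2 * Real.sin (2 * s)) * (b0 + 2 / τ ^ 2 * e0) +
        J / (κ * (1 - τ) * ms Θ σ) * (4 * s * Real.sin (2 * s))) := by
    refine intervalIntegral.integral_mono_on_of_le_Ioo hpi2 in1 (in2.add in3) fun s hs => ?_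
    have h12 := near_le' hMV hΩ hb hu hΘ hm hκ hτ hτ1 hV hI hs.1 hs.2.le
    have h13 : 0 ≤ 2 * Real.sin (2 * s) := by
      have := Real.sin_nonneg_of_nonneg_of_le_pi (x := 2 * s) (by linarith [hs.1])
        (by linarith [hs.2])
      linarith
    have h14 := mul_le_mul_of_nonneg_left h12 h13
    rw [← hJ, ← hb0, ← he0] at h14
    refine h14.trans (le_of_eq ?_)
    have h15 : 2 * (s / (κ * (1 - τ))) / ms Θ σ * J = J / (κ * (1 - τ) * ms Θ σ) * (2 * s) := by
      field_simp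
    rw [h15]
    ring
  rw [intervalIntegral.integral_add in2 in3, intervalIntegral.integral_const_mul, int_s_sin,
    intervalIntegral.integral_mul_const] at hle
  have h2 : ∫ s in (0 : ℝ)..(Real.pi / 2), 2 * Real.sin (2 * s) = 2 := by
    rw [intervalIntegral.integral_of_le (by positivity), int_sin 0 (by positivity)]
    simp only [mul_zero, Real.cos_zero]
    norm_num
  rw [h2] at hle
  rw [← intervalIntegral.integral_of_le hpi2] at hF
  have hb1 : volume.real {z | z ∈ Ω ∧ infDist z Ωᶜ ≤ Real.pi / (2 * κ * (1 - τ))} = b0 := by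
    rw [hb0]
    unfold bdy
    have : Real.pi / (2 * κ * (1 - τ)) = Real.pi / 2 / (1 - τ) / κ := by field_simp
    rw [this]
  rw [hb1]
  have h16 : volume.real Ω - 2 * b0 - 4 / τ ^ 2 * e0 ≤ J / (κ * (1 - τ) * ms Θ σ) * Real.pi := by
    have h17 : 2 * (b0 + 2 / τ ^ 2 * e0) = 2 * b0 + 4 / τ ^ 2 * e0 := by ring
    linarith
  calc ms Θ σ * (1 - τ) * (κ / Real.pi) * (volume.real Ω - 2 * b0 - 4 / τ ^ 2 * e0)
      ≤ ms Θ σ * (1 - τ) * (κ / Real.pi) * (J / (κ * (1 - τ) * ms Θ σ) * Real.pi) :=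
        mul_le_mul_of_nonneg_left h16 (by positivity)
    _ = J := by field_simp

end Pool.Agent.Helper35.SV
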