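import Pool.Graph.R_pool_sql_team_seeded_3997aac3.Q73.NL.StmD
import Pool.Graph.R_pool_sql_team_seeded_3997aac3.Q73.PW.Stm3

/-!
# Small values of eigenfunctions on surfaces: statements of the lemmas
-/

set_option autoImplicit false
open MeasureTheory Filter Topology Complex Metric
open scoped ContDiff ENNReal

namespace Pool.Agent.Helper35.SV

noncomputable section

open Pool.Agent.Q73.NL (dx dy lap Sol nod gr)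
open Pool.Agent.Q73.PW (Seq U1 U2)
open Pool.Agent.Results.MP_a52643_an.AbsoluteContinuity (lapl LocL2 Test)
open Pool.Agent.Results.MP_a52643_an.SharpNodalLength (IsothermalAtlas IsEigenfunction)

/-- weight functions: continuous, `0 ≤ Θ ≤ 1`, zero outside `(-σ, σ)` -/
structure Wt (Θ : ℝ → ℝ) (σ : ℝ) : Prop where
  pos : 0 < σ
  cont : Continuous Θ
  nn : ∀ x, 0 ≤ Θ x
  le : ∀ x, Θ x ≤ 1
  supp : ∀ x, σ ≤ |x| → Θ x = 0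

/-- the mass of the weight function -/
def ms (Θ : ℝ → ℝ) (σ : ℝ) : ℝ := ∫ x in (-σ)..σ, Θ x

/-- the indicator function of the interval `[-162 σ, 162 σ]` -/
def iv (σ : ℝ) : ℝ → ℝ := {x : ℝ | |x| ≤ 162 * σ}.indicator 1

/-- MV: the mean value inequality for nonnegative superharmonic functions in a disc.

Proof. `A (s) = ∫_0^{2π} g (y + s e^{iθ}) dθ`, `B = A'`; `(s B)' = s ∫ Δg ≤ 0`, so `s B (s) ≤ 0`, `A (s) ≤ A (0)`;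
polar coordinates. -/
def S_MV : Prop := ∀ (g : ℂ → ℝ) (y : ℂ) (r : ℝ), 0 < r → (∀ z ∈ ball y r, ContDiffAt ℝ 2 g z) →
  (∀ z ∈ ball y r, 0 ≤ g z) → (∀ z ∈ ball y r, lap g z ≤ 0) →
  ∫⁻ z in ball y r, ENNReal.ofReal (g z) ≤ ENNReal.ofReal (Real.pi * r ^ 2 * g y)

/-- BAD: if `u` has a zero well inside the disc and the circle misses `{u ≥ σ}` or `{u ≤ -σ}`, then `u` is
small on a large part of the disc.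

Proof. `w (z) = cos (a re (z - x)) cos (a im (z - x)) / cos² (a t)`, `1 ≤ w ≤ W` in the disc, `Δw = -2 a² w`.
`g = σ w - u ≥ 0` on the circle; `t4` gives `g ≥ 0` in the disc, `Δg ≤ -V g ≤ 0`, `g (y) = σ w (y) ≤ σ W`; MV and
Markov's inequality in `ball y (τ t)`: `g < 2 σ W` on at least half of it, and there `|u| ≤ 2 σ W`. -/
def S_BAD : Prop := ∀ (Ω : Set ℂ) (V u : ℂ → ℝ) (x : ℂ) (t a W σ τ : ℝ), IsOpen Ω → Sol Ω V u → 0 < t →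
  0 < a → a * t < Real.pi / 2 → 0 < σ → 0 < τ → τ ≤ 1 → 1 ≤ W * Real.cos (a * t) ^ 2 →
  (∀ z ∈ Ω, 0 ≤ V z ∧ V z < 2 * a ^ 2) → closedBall x t ⊆ Ω → (∃ y ∈ ball x ((1 - τ) * t), u y = 0) →
  ((∀ z ∈ sphere x t, u z < σ) ∨ (∀ z ∈ sphere x t, -σ < u z)) →
    ENNReal.ofReal (Real.pi * τ ^ 2 * t ^ 2 / 2) ≤ volume (ball x t ∩ {z | |u z| ≤ 2 * W * σ})

/-- CV: variation along the circle.

Proof. `X` a primitive of `Θ`; `X ∘ h` changes by `ms Θ σ` from a point with `h ≥ σ` to a point with `h ≤ -σ` and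
back. -/
def S_CV : Prop := ∀ (h h' : ℝ → ℝ) (Θ : ℝ → ℝ) (σ a b : ℝ), (∀ s, HasDerivAt h (h' s) s) →
  Continuous h' → (∀ s, h (s + 2 * Real.pi) = h s) → Wt Θ σ → σ ≤ h a → h b ≤ -σ →
  2 * ms Θ σ ≤ ∫ s in (0 : ℝ)..(2 * Real.pi), Θ (h s) * |h' s|

/-- CR: the soft form of Crofton's inequality for circles.

Proof. CV for `h (s) = u (x + t e^{is})` and Fubini: the integral over `x` of
`∫_0^{2π} Θ (u (x + t e^{is})) t |Du (x + t e^{is}) (i e^{is})| ds` is at most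
`t ∫_Ω Θ (u) ∫_0^{2π} |Du (z) (i e^{is})| ds dz = 4 t ∫_Ω Θ (u) |∇u|`; Markov's inequality. -/
def S_CR : Prop := ∀ (Ω : Set ℂ) (u : ℂ → ℝ) (Θ : ℝ → ℝ) (σ t : ℝ), IsOpen Ω → ContDiffOn ℝ ∞ u Ω →
  Wt Θ σ → 0 < ms Θ σ → 0 < t →
  volume {x | closedBall x t ⊆ Ω ∧ (∃ z ∈ sphere x t, σ ≤ u z) ∧ (∃ z ∈ sphere x t, u z ≤ -σ)} ≤
    ENNReal.ofReal (2 * t / ms Θ σ) * ∫⁻ z in Ω, ENNReal.ofReal (Θ (u z) * gr u z)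

/-- MAIN: the main inequality.

Proof. Test function inequality `t9f` of the library, layer cake (`fubini`), BAD (`a = 4 κ / 5`) and CR at the
radius `t = s / (κ (1 - τ))`. -/
def S_MAIN : Prop := ∀ (Ω : Set ℂ) (V u : ℂ → ℝ) (Θ : ℝ → ℝ) (σ κ τ : ℝ), IsOpen Ω →
  Bornology.IsBounded Ω → Sol Ω V u → Wt Θ σ → 0 < ms Θ σ → 0 < κ → 0 < τ → τ ≤ 1 / 10 →
  (∀ z ∈ Ω, κ ^ 2 ≤ V z ∧ V z ≤ 5 / 4 * κ ^ 2) → ContinuousOn V Ω →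
  ENNReal.ofReal (ms Θ σ * (1 - τ) * (κ / Real.pi) * (volume.real Ω -
    2 * volume.real {z | z ∈ Ω ∧ infDist z Ωᶜ ≤ Real.pi / (2 * κ * (1 - τ))} -
    4 / τ ^ 2 * volume.real {z | z ∈ Ω ∧ |u z| ≤ 162 * σ})) ≤
      ∫⁻ z in Ω, ENNReal.ofReal (Θ (u z) * gr u z)

/-- EN: the energy inequality.

Proof. `X (y) = ∫_{-σ}^y Θ - ms Θ σ / 2` is `C¹`, `|X| ≤ ms Θ σ / 2`. `∫ div (χ X(u) ∇u) = 0` gives
`∫ χ Θ(u) |∇u|² = lam ∫ χ ρ X(u) u - ∫ X(u) ∇χ·∇u`, and `|∫ X(u) ∇χ·∇u| ≤ C ∫_{tsupport χ} |∇u| ≤ C' √lam` by `j8`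
of the library (`Pool.Agent.Q73.PW.J8`). -/
def S_EN : Prop := ∀ (Ω : Set ℂ) (ρ : ℂ → ℝ) (lam : ℕ → ℝ) (u : ℕ → ℂ → ℝ), Seq Ω ρ lam u →
  ∀ χ : ℂ → ℝ, Test Ω χ → ∀ (Θ : ℝ → ℝ) (σ : ℝ), Wt Θ σ → ∃ C : ℝ, ∀ᶠ n in atTop,
    ∫ z, χ z * Θ (u n z) * (U1 (u n) z ^ 2 + U2 (u n) z ^ 2) ≤
      lam n * (ms Θ σ / 2 * ∫ z, χ z * ρ z * |u n z|) + C * √(lam n)

/-- LIN: the linear inequality for a test function in a chart. -/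
def S_LIN : Prop := ∀ (Ω : Set ℂ) (ρ : ℂ → ℝ) (lam : ℕ → ℝ) (u : ℕ → ℂ → ℝ), Seq Ω ρ lam u →
  ∀ χ : ℂ → ℝ, Test Ω χ → ∀ (Θ : ℝ → ℝ) (σ : ℝ), Wt Θ σ → 0 < ms Θ σ → ∀ τ : ℝ, 0 < τ → τ ≤ 1 / 10 →
  ∀ η : ℝ, 0 < η → ∀ᶠ n in atTop,
    ms Θ σ * (1 - τ) / Real.pi * ((∫ z, χ z * ρ z) -
      4 / τ ^ 2 * ∫ z, χ z * ρ z * iv σ (u n z)) ≤
        (∫ z, χ z * √(ρ z) * (Θ (u n z) * gr (u n) z)) / √(lam n) + η

/-- LOC: the local inequality. -/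
def S_LOC : Prop := ∀ (Ω : Set ℂ) (ρ : ℂ → ℝ) (lam : ℕ → ℝ) (u : ℕ → ℂ → ℝ), Seq Ω ρ lam u →
  ∀ χ : ℂ → ℝ, Test Ω χ → ∀ (Θ : ℝ → ℝ) (σ : ℝ), Wt Θ σ → 0 < ms Θ σ → ∀ τ : ℝ, 0 < τ → τ ≤ 1 / 10 →
  ∀ η : ℝ, 0 < η → ∀ᶠ n in atTop,
    ms Θ σ * (1 - τ) / Real.pi * ((∫ z, χ z * ρ z) -
      4 / τ ^ 2 * ∫ z, χ z * ρ z * iv σ (u n z)) ≤
        √(∫ z, χ z * ρ z * Θ (u n z)) * √(ms Θ σ / 2 * ∫ z, χ z * ρ z * |u n z|) + η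

universe w v

/-- SURF: the inequality on a surface. -/
def S_SURF : Prop := ∀ (M : Type w) (ι : Type v) [TopologicalSpace M] [T2Space M]
  [SecondCountableTopology M] [MeasurableSpace M] [BorelSpace M] (U : ι → Set ℂ) (φ : ι → ℂ → M)
  (ρ : ι → ℂ → ℝ) (area len : Measure M), IsothermalAtlas U φ ρ area len →
  (∀ i, ContDiffOn ℝ ∞ (ρ i) (U i)) →
  ∀ (lam : ℕ → ℝ) (f : ℕ → M → ℝ) (D : Set M) (B : ℝ), Tendsto lam atTop atTop →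
    (∀ n, IsEigenfunction U φ ρ (lam n) (f n)) → IsOpen D → area D ≠ ⊤ →
    (∀ n, ∫⁻ x in D, ENNReal.ofReal (f n x ^ 2) ∂area ≤ ENNReal.ofReal B) →
    ∀ (Θ : ℝ → ℝ) (σ : ℝ), Wt Θ σ → 0 < ms Θ σ → ∀ τ : ℝ, 0 < τ → τ ≤ 1 / 10 →
    ∀ η : ℝ, 0 < η → ∀ᶠ n in atTop,
      ms Θ σ * (1 - τ) / Real.pi * ((area D).toReal -
        4 / τ ^ 2 * (area {x | x ∈ D ∧ |f n x| ≤ 162 * σ}).toReal) ≤
          √(∫ x in D, Θ (f n x) ∂area) * √(ms Θ σ / 2 * ∫ x in D, |f n x| ∂area) + η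

end

end Pool.Agent.Helper35.SV
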