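import Mathlib

/-!
# Small values of eigenfunctions: statement of the sharp example
-/

set_option autoImplicit false
open MeasureTheory Filter Topology Complex Metric
open scoped ContDiff ENNReal

namespace Pool.Agent.Helper35.SV

noncomputable section

/-- the open unit square -/
def usq : Set ℂ := {z | (0 < z.re ∧ z.re < 1) ∧ (0 < z.im ∧ z.im < 1)}

/-- SHARP: the law of the plane wave `r cos (2 π (n + 1) x)`, `r = √(2 B)`, in the unit square.

Proof. `ν` is the law of `r cos (2 π t)`, `t` uniform in `(0, 1)`. Fubini and periodicity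
(`∫_0^1 G ((n+1) x) dx = ∫_0^1 G`). `ν [-s, s] = |{t : |cos (2 π t)| ≤ s / r}| = (2/π) arcsin (s / r)`, and
`∫ |x| dν = (2/π) r`. -/
def S_SHARP : Prop := ∀ B : ℝ, 0 < B → ∃ ν : Measure ℝ, IsProbabilityMeasure ν ∧
  (∀ (n : ℕ) (g : ℝ → ℝ), Continuous g →
    ∫ z in usq, g (√(2 * B) * Real.cos (2 * Real.pi * (n + 1) * z.re)) = ∫ x, g x ∂ν) ∧
  (∀ n : ℕ, ∫ z in usq, (√(2 * B) * Real.cos (2 * Real.pi * (n + 1) * z.re)) ^ 2 = B) ∧
  volume usq = 1 ∧
  Tendsto (fun s : ℝ => ν (Set.Icc (-s) s) / ENNReal.ofReal (2 * s)) (𝓝[>] 0)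
    (𝓝 (ENNReal.ofReal (1 / (Real.pi * √(2 * B))))) ∧
  ∫⁻ x, ENNReal.ofReal |x| ∂ν = ENNReal.ofReal (2 / Real.pi * √(2 * B))

end

end Pool.Agent.Helper35.SV
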