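import Pool.Agent.Helper35.SV.Loc
import Pool.Graph.R_pool_sql_team_seeded_3997aac3.Q73.PW.J15

/-!
# Small values: the inequality on a surface
-/

set_option autoImplicit false
open MeasureTheory Filter Topology Complex Metric
open scoped ContDiff ENNReal

namespace Pool.Agent.Helper35.SV

open Pool.Agent.Q73.PW (Seq j15 j16)
open Pool.Agent.Results.MP_a52643_an.AbsoluteContinuity (lapl LocL2 Test)
open Pool.Agent.Results.MP_a52643_an.SharpNodalLength (IsothermalAtlas IsEigenfunction)

universe w v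

theorem surface (hMV : S_MV) : S_SURF.{w, v} := by
  intro M ι _ _ _ _ _ U φ ρ area len h hρ lam f D B hlam he hD hfD hB Θ σ hΘ hms τ hτ hτ1 η hη
  obtain ⟨mf, sq⟩ := j16 M ι U φ ρ area len h hρ lam f D B hlam he hD hB
  have hc0 : 0 < cst Θ σ τ := cst_pos hms hτ1
  set c := cst Θ σ τ with hc
  have hfin : IsFiniteMeasure (area.restrict D) :=
    ⟨by rw [Measure.restrict_apply_univ]; exact lt_top_iff_ne_top.2 hfD⟩
  obtain ⟨m, i, V, χ, w, w1, w2, w3, w4, w5, w6⟩ := j15 M ι U φ ρ area len h D hD hfD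
    (η / (2 * c)) (by positivity)
  have ev : ∀ᶠ n in atTop, ∀ j, c * ((∫ x in D, w j x ∂area) -
      4 / τ ^ 2 * ∫ x in D, w j x * iv σ (f n x) ∂area) ≤
        √(∫ x in D, w j x * Θ (f n x) ∂area) *
          √(ms Θ σ / 2 * ∫ x in D, w j x * |f n x| ∂area) + η / (2 * (m + 1)) := by
    refine eventually_all.2 fun j => ?_
    obtain ⟨oV, VU, VD, T⟩ := w1 j
    filter_upwards [loc hMV (V j) (ρ (i j)) lam (fun n z => f n (φ (i j) z)) (sq (i j) (V j) oV VU VD)
      (χ j) T Θ σ hΘ hms τ hτ hτ1 (η / (2 * (m + 1))) (by positivity)] with n hn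
    have e1 : ∫ x in D, w j x ∂area = ∫ z, χ j z * ρ (i j) z := by
      have := w6 j (fun _ => 1) measurable_const
      simp only [mul_one] at this
      exact this
    have e2 := w6 j (fun x => iv σ (f n x)) ((iv_meas σ).comp (mf n))
    have e3 := w6 j (fun x => Θ (f n x)) (hΘ.cont.measurable.comp (mf n))
    have e4 := w6 j (fun x => |f n x|) (mf n).abs
    rw [e1, e2, e3, e4]
    exact hn
  filter_upwards [ev] with n hn
  have wj1 : ∀ j x, w j x ≤ 1 := fun j x =>
    (Finset.single_le_sum (f := fun j => w j x) (fun j _ => w3 j x) (Finset.mem_univ j)).trans (w4 x)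
  have iw : ∀ (j : Fin m) {g : M → ℝ}, Integrable g (area.restrict D) →
      Integrable (fun x => w j x * g x) (area.restrict D) := by
    intro j g hg
    refine Integrable.bdd_mul (c := 1) hg (w2 j).aestronglyMeasurable (ae_of_all _ fun z => ?_)
    rw [Real.norm_eq_abs, abs_of_nonneg (w3 j z)]
    exact wj1 j z
  have iw' : ∀ j, Integrable (w j) (area.restrict D) := by
    intro j
    have := iw j (g := fun _ => 1) (integrable_const _)
    simp only [mul_one] at this
    exact this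
  have i2 : Integrable (fun x => f n x ^ 2) (area.restrict D) := by
    refine ⟨((mf n).pow_const 2).aestronglyMeasurable, ?_⟩
    rw [hasFiniteIntegral_iff_ofReal (ae_of_all _ fun s => sq_nonneg _)]
    exact (hB n).trans_lt ENNReal.ofReal_lt_top
  have i1 : Integrable (fun x => |f n x|) (area.restrict D) := by
    refine Integrable.mono' (g := fun x => 1 + f n x ^ 2) ((integrable_const _).add i2)
      (mf n).abs.aestronglyMeasurable (ae_of_all _ fun x => ?_)
    rw [Real.norm_eq_abs, abs_abs, ← sq_abs]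
    nlinarith [sq_nonneg (|f n x| - 1), abs_nonneg (f n x)]
  have iΘ : Integrable (fun x => Θ (f n x)) (area.restrict D) := by
    refine Integrable.of_bound (hΘ.cont.measurable.comp (mf n)).aestronglyMeasurable 1
      (ae_of_all _ fun x => ?_)
    rw [Real.norm_eq_abs, abs_of_nonneg (hΘ.nn _)]
    exact hΘ.le _
  have iv1 : Integrable (fun x => iv σ (f n x)) (area.restrict D) := by
    refine Integrable.of_bound ((iv_meas σ).comp (mf n)).aestronglyMeasurable 1
      (ae_of_all _ fun x => ?_)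
    rw [Real.norm_eq_abs, abs_of_nonneg (iv_nonneg _ _)]
    exact iv_le _ _
  -- sums
  have s1 : ∀ {g : M → ℝ}, (∀ x, 0 ≤ g x) → Integrable g (area.restrict D) →
      ∑ j, ∫ x in D, w j x * g x ∂area ≤ ∫ x in D, g x ∂area := by
    intro g g0 hg
    rw [← integral_finsetSum _ fun j _ => iw j hg]
    refine integral_mono (integrable_finsetSum _ fun j _ => iw j hg) hg fun x => ?_
    show ∑ j, w j x * g x ≤ g x
    rw [← Finset.sum_mul]
    exact mul_le_of_le_one_left (g0 x) (w4 x)
  have a1 : ∑ j, ∫ x in D, w j x * Θ (f n x) ∂area ≤ ∫ x in D, Θ (f n x) ∂area :=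
    s1 (fun x => hΘ.nn _) iΘ
  have a2 : ∑ j, ∫ x in D, w j x * |f n x| ∂area ≤ ∫ x in D, |f n x| ∂area :=
    s1 (fun x => abs_nonneg _) i1
  have a3 : ∑ j, ∫ x in D, w j x * iv σ (f n x) ∂area ≤ ∫ x in D, iv σ (f n x) ∂area :=
    s1 (fun x => iv_nonneg _ _) iv1
  have a4 : (area D).toReal - η / (2 * c) ≤ ∑ j, ∫ x in D, w j x ∂area := by
    have e1 : ∫ x in D, (1 - ∑ j, w j x) ∂area = (area D).toReal - ∑ j, ∫ x in D, w j x ∂area := by
      rw [integral_sub (integrable_const _) (integrable_finsetSum _ fun j _ => iw' j),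
        integral_finsetSum _ fun j _ => iw' j, setIntegral_const, smul_eq_mul, mul_one]
      rfl
    rw [e1] at w5
    linarith
  have a5 : ∫ x in D, iv σ (f n x) ∂area = (area {x | x ∈ D ∧ |f n x| ≤ 162 * σ}).toReal := by
    have hm1 : MeasurableSet {x | |f n x| ≤ 162 * σ} := measurableSet_le (mf n).abs measurable_const
    have e1 : (fun x => iv σ (f n x)) = {x | |f n x| ≤ 162 * σ}.indicator (1 : M → ℝ) := by
      funext x
      unfold iv
      by_cases hx : |f n x| ≤ 162 * σ
      · rw [Set.indicator_of_mem (show f n x ∈ {x : ℝ | |x| ≤ 162 * σ} from hx),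
          Set.indicator_of_mem (show x ∈ {x | |f n x| ≤ 162 * σ} from hx)]
        rfl
      · rw [Set.indicator_of_notMem (show f n x ∉ {x : ℝ | |x| ≤ 162 * σ} from hx),
          Set.indicator_of_notMem (show x ∉ {x | |f n x| ≤ 162 * σ} from hx)]
    rw [e1, integral_indicator_one hm1, measureReal_def, Measure.restrict_apply hm1]
    congr 2
    ext x
    simp only [Set.mem_inter_iff, Set.mem_ofPred_eq]
    tauto
  -- Cauchy-Schwarz
  have n1 : ∀ j, 0 ≤ ∫ x in D, w j x * Θ (f n x) ∂area := fun j =>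
    integral_nonneg fun x => mul_nonneg (w3 j x) (hΘ.nn _)
  have n2 : ∀ j, 0 ≤ ms Θ σ / 2 * ∫ x in D, w j x * |f n x| ∂area := fun j =>
    mul_nonneg (by linarith) (integral_nonneg fun x => mul_nonneg (w3 j x) (abs_nonneg _))
  have cs := Real.sum_sqrt_mul_sqrt_le (Finset.univ : Finset (Fin m)) n1 n2
  have b1 : √(∑ j, ∫ x in D, w j x * Θ (f n x) ∂area) *
      √(∑ j, ms Θ σ / 2 * ∫ x in D, w j x * |f n x| ∂area) ≤
        √(∫ x in D, Θ (f n x) ∂area) * √(ms Θ σ / 2 * ∫ x in D, |f n x| ∂area) := by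
    refine mul_le_mul (Real.sqrt_le_sqrt a1) (Real.sqrt_le_sqrt ?_) (Real.sqrt_nonneg _)
      (Real.sqrt_nonneg _)
    rw [← Finset.mul_sum]
    exact mul_le_mul_of_nonneg_left a2 (by linarith)
  have b2 : ∑ j, c * ((∫ x in D, w j x ∂area) - 4 / τ ^ 2 * ∫ x in D, w j x * iv σ (f n x) ∂area) ≤
      (∑ j, √(∫ x in D, w j x * Θ (f n x) ∂area) *
          √(ms Θ σ / 2 * ∫ x in D, w j x * |f n x| ∂area)) + η / 2 := by
    calc _ ≤ ∑ j, (√(∫ x in D, w j x * Θ (f n x) ∂area) *
          √(ms Θ σ / 2 * ∫ x in D, w j x * |f n x| ∂area) + η / (2 * (m + 1))) :=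
          Finset.sum_le_sum fun j _ => hn j
      _ = (∑ j, √(∫ x in D, w j x * Θ (f n x) ∂area) *
          √(ms Θ σ / 2 * ∫ x in D, w j x * |f n x| ∂area)) + m * (η / (2 * (m + 1))) := by
          rw [Finset.sum_add_distrib]; simp
      _ ≤ _ := by
          have : (m : ℝ) * (η / (2 * (m + 1))) ≤ η / 2 := by
            rw [mul_div_assoc', div_le_div_iff₀ (by positivity) (by positivity)]
            nlinarith [Nat.cast_nonneg (α := ℝ) m]
          linarith
  rw [← Finset.mul_sum, Finset.sum_sub_distrib, ← Finset.mul_sum] at b2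
  show c * ((area D).toReal - 4 / τ ^ 2 * (area {x | x ∈ D ∧ |f n x| ≤ 162 * σ}).toReal) ≤ _
  rw [← a5]
  have hd0 : 0 ≤ 4 / τ ^ 2 := by positivity
  have b3 : (area D).toReal - η / (2 * c) - 4 / τ ^ 2 * ∫ x in D, iv σ (f n x) ∂area ≤
      (∑ j, ∫ x in D, w j x ∂area) - 4 / τ ^ 2 * ∑ j, ∫ x in D, w j x * iv σ (f n x) ∂area := by
    have := mul_le_mul_of_nonneg_left a3 hd0
    linarith
  have b4 := mul_le_mul_of_nonneg_left b3 hc0.le
  have b5 : c * (η / (2 * c)) = η / 2 := by field_simp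
  nlinarith

end Pool.Agent.Helper35.SV
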